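import Mathlib

/-!
# Analysis on the discrete cube

Walsh functions on the cube `Fin k → ℤˣ`, the noise operator, and Khinchine's inequality
(`L₁`-`L₂`, constant `9/5`).
-/

set_option autoImplicit false

open Finset

namespace Pool.Agent.Helper24.Cube

variable {k : ℕ}

/-- the cube `{-1,1}^k` -/
abbrev Q (k : ℕ) : Type := Fin k → ℤˣ

/-- the real number of a sign -/
def r (u : ℤˣ) : ℝ := ((u : ℤ) : ℝ)

@[simp] lemma r_one : r 1 = 1 := by simp [r]
@[simp] lemma r_neg (u : ℤˣ) : r (-u) = - r u := by simp [r]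
@[simp] lemma r_mul (u v : ℤˣ) : r (u * v) = r u * r v := by simp [r]
lemma r_sq (u : ℤˣ) : r u * r u = 1 := by
  rw [← r_mul]; simp
lemma r_eq (u : ℤˣ) : r u = 1 ∨ r u = -1 := by
  rcases Int.units_eq_one_or u with h | h
  · left; simp [h]
  · right; simp [h]
lemma abs_r (u : ℤˣ) : |r u| = 1 := by
  rcases r_eq u with h | h <;> simp [h]

lemma sum_units (f : ℤˣ → ℝ) : ∑ u : ℤˣ, f u = f 1 + f (-1) := by
  have : (univ : Finset ℤˣ) = {1, -1} := by decide
  rw [this, sum_pair (by decide)]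

/-- average over the cube -/
noncomputable def av (g : Q k → ℝ) : ℝ := (2 ^ k : ℝ)⁻¹ * ∑ s, g s

lemma card_Q : (Fintype.card (Q k) : ℝ) = 2 ^ k := by
  simp [Q, Fintype.card_units_int]

lemma av_const (c : ℝ) : av (fun _ : Q k => c) = c := by
  unfold av
  rw [sum_const, card_univ, nsmul_eq_mul, card_Q]
  field_simp

lemma av_add (f g : Q k → ℝ) : av (fun s => f s + g s) = av f + av g := by
  unfold av; rw [sum_add_distrib]; ring

lemma av_sub (f g : Q k → ℝ) : av (fun s => f s - g s) = av f - av g := by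
  unfold av; rw [sum_sub_distrib]; ring

lemma av_mul_left (c : ℝ) (f : Q k → ℝ) : av (fun s => c * f s) = c * av f := by
  unfold av; rw [← mul_sum]; ring

lemma av_mono {f g : Q k → ℝ} (h : ∀ s, f s ≤ g s) : av f ≤ av g := by
  unfold av
  exact mul_le_mul_of_nonneg_left (sum_le_sum fun s _ => h s) (by positivity)

lemma av_nonneg {f : Q k → ℝ} (h : ∀ s, 0 ≤ f s) : 0 ≤ av f := by
  have := av_mono (f := fun _ => (0 : ℝ)) h
  rwa [av_const] at this

lemma av_sum {ι : Type*} (t : Finset ι) (f : ι → Q k → ℝ) :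
    av (fun s => ∑ i ∈ t, f i s) = ∑ i ∈ t, av (f i) := by
  unfold av; rw [sum_comm, mul_sum]

lemma av_comm (f : Q k → Q k → ℝ) :
    av (fun s => av (fun t => f s t)) = av (fun t => av (fun s => f s t)) := by
  unfold av
  rw [← mul_sum, ← mul_sum, sum_comm]

lemma av_shift (t : Q k) (f : Q k → ℝ) : av (fun s => f (s * t)) = av f := by
  unfold av
  congr 1
  exact Fintype.sum_equiv (Equiv.mulRight t) _ _ (fun s => rfl)

lemma av_shift' (t : Q k) (f : Q k → ℝ) : av (fun s => f (t * s)) = av f := by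
  unfold av
  congr 1
  exact Fintype.sum_equiv (Equiv.mulLeft t) _ _ (fun s => rfl)

lemma abs_av_le (f : Q k → ℝ) : |av f| ≤ av (fun s => |f s|) := by
  unfold av
  rw [abs_mul, abs_of_nonneg (by positivity : (0 : ℝ) ≤ (2 ^ k : ℝ)⁻¹)]
  exact mul_le_mul_of_nonneg_left (abs_sum_le_sum_abs _ _) (by positivity)

/-- a product function -/
lemma av_prod (f : Fin k → ℤˣ → ℝ) :
    av (fun s : Q k => ∏ i, f i (s i)) = ∏ i, ((f i 1 + f i (-1)) / 2) := by
  unfold av
  have h : ∑ s : Q k, ∏ i, f i (s i) = ∏ i, ∑ u, f i u := by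
    rw [Finset.prod_univ_sum, Fintype.piFinset_univ]
  rw [h]
  simp_rw [sum_units]
  rw [prod_div_distrib, prod_const, card_univ, Fintype.card_fin]
  field_simp

/-- Walsh functions -/
def w (A : Finset (Fin k)) (s : Q k) : ℝ := ∏ i ∈ A, r (s i)

lemma w_mul (A : Finset (Fin k)) (s t : Q k) : w A (s * t) = w A s * w A t := by
  simp [w, prod_mul_distrib]

lemma w_neg (A : Finset (Fin k)) (s : Q k) : w A (-s) = (-1) ^ A.card * w A s := by
  simp [w, prod_neg]

lemma w_singleton (i : Fin k) (s : Q k) : w {i} s = r (s i) := by simp [w]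

lemma av_w_mul_w (A B : Finset (Fin k)) :
    av (fun s => w A s * w B s) = if A = B then 1 else 0 := by
  have h1 : ∀ s : Q k, w A s * w B s =
      ∏ i, ((if i ∈ A then r (s i) else 1) * (if i ∈ B then r (s i) else 1)) := by
    intro s
    rw [prod_mul_distrib]
    simp [w]
  simp_rw [h1]
  rw [av_prod (fun i u => (if i ∈ A then r u else 1) * (if i ∈ B then r u else 1))]
  split_ifs with h
  · subst h
    apply prod_eq_one
    intro i _
    by_cases hi : i ∈ A <;> simp [hi]
  · have : ∃ i, ¬ (i ∈ A ↔ i ∈ B) := by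
      by_contra hcon
      push Not at hcon
      exact h (Finset.ext hcon)
    obtain ⟨i, hi⟩ := this
    apply prod_eq_zero (mem_univ i)
    by_cases hA : i ∈ A
    · have hB : i ∉ B := fun hB => hi ⟨fun _ => hB, fun _ => hA⟩
      simp [hA, hB]
    · have hB : i ∈ B := by
        by_contra hB
        exact hi ⟨fun h => absurd h hA, fun h => absurd h hB⟩
      simp [hA, hB]

/-- the Walsh coefficient -/
noncomputable def co (W : Q k → ℝ) (A : Finset (Fin k)) : ℝ := av (fun t => W t * w A t)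

/-- the noise kernel -/
noncomputable def ker (h : ℝ) (u : Q k) : ℝ := ∏ i, (1 + h * r (u i))

lemma ker_eq (h : ℝ) (u : Q k) : ker h u = ∑ A ∈ univ.powerset, h ^ A.card * w A u := by
  unfold ker
  rw [prod_one_add]
  apply sum_congr rfl
  intro A _
  rw [prod_mul_distrib, prod_const]
  rfl

lemma ker_nonneg {h : ℝ} (h0 : 0 ≤ h) (h1 : h ≤ 1) (u : Q k) : 0 ≤ ker h u := by
  apply prod_nonneg
  intro i _
  rcases r_eq (u i) with hu | hu <;> rw [hu] <;> linarith

lemma av_ker (h : ℝ) : av (ker h : Q k → ℝ) = 1 := by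
  unfold ker
  rw [av_prod (fun _ u => 1 + h * r u)]
  apply prod_eq_one
  intro i _
  simp
  ring

/-- the noise operator -/
noncomputable def T (h : ℝ) (W : Q k → ℝ) (s : Q k) : ℝ := av (fun t => W t * ker h (s * t))

lemma mul_self_Q (s : Q k) : s * s = 1 := by
  funext i; simp

lemma T_eq (h : ℝ) (W : Q k → ℝ) (s : Q k) :
    T h W s = ∑ A ∈ univ.powerset, h ^ A.card * co W A * w A s := by
  unfold T
  simp_rw [ker_eq, mul_sum]
  rw [av_sum]
  apply sum_congr rfl
  intro A _
  unfold co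
  rw [show h ^ A.card * av (fun t => W t * w A t) * w A s =
    (h ^ A.card * w A s) * av (fun t => W t * w A t) by ring, ← av_mul_left]
  congr 1
  funext t
  rw [w_mul]
  ring

lemma T_eq' (h : ℝ) (W : Q k → ℝ) (s : Q k) :
    T h W s = av (fun u => ker h u * W (s * u)) := by
  unfold T
  rw [← av_shift' s]
  congr 1
  funext u
  rw [← mul_assoc, mul_self_Q, one_mul]
  ring

lemma T_one (W : Q k → ℝ) (s : Q k) : T 1 W s = W s := by
  have hk : ∀ u : Q k, ker 1 u = if u = 1 then (2 : ℝ) ^ k else 0 := by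
    intro u
    unfold ker
    split_ifs with h
    · subst h
      simp
      norm_num
    · obtain ⟨i, hi⟩ := Function.ne_iff.1 h
      apply prod_eq_zero (mem_univ i)
      rcases Int.units_eq_one_or (u i) with h' | h'
      · exact absurd h' hi
      · simp [h']
  rw [T_eq']
  simp_rw [hk]
  unfold av
  simp

lemma sq_sum_w (c : Finset (Fin k) → ℝ) :
    av (fun s => (∑ A ∈ univ.powerset, c A * w A s) ^ 2) = ∑ A ∈ univ.powerset, c A ^ 2 := by
  have h1 : ∀ s : Q k, (∑ A ∈ univ.powerset, c A * w A s) ^ 2 =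
      ∑ A ∈ univ.powerset, ∑ B ∈ univ.powerset, c A * c B * (w A s * w B s) := by
    intro s
    rw [sq, sum_mul_sum]
    apply sum_congr rfl
    intro A _
    apply sum_congr rfl
    intro B _
    ring
  simp_rw [h1]
  rw [av_sum]
  apply sum_congr rfl
  intro A hA
  rw [av_sum]
  simp_rw [av_mul_left, av_w_mul_w]
  simp [sq]

lemma parseval (W : Q k → ℝ) : av (fun s => W s ^ 2) = ∑ A ∈ univ.powerset, co W A ^ 2 := by
  have h1 : ∀ s, W s = ∑ A ∈ univ.powerset, co W A * w A s := by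
    intro s
    rw [← T_one W s, T_eq]
    simp
  rw [← sq_sum_w]
  congr 1
  funext s
  rw [← h1 s]

/-- A function with vanishing Walsh coefficients of levels `0`, `1`, `2` is contracted. -/
lemma T_contract (h : ℝ) (h0 : 0 ≤ h) (h1 : h ≤ 1) (W : Q k → ℝ)
    (hW : ∀ A : Finset (Fin k), A.card ≤ 2 → co W A = 0) :
    av (fun s => T h W s ^ 2) ≤ h ^ 6 * av (fun s => W s ^ 2) := by
  simp_rw [T_eq]
  rw [sq_sum_w (fun A => h ^ A.card * co W A), parseval, mul_sum]
  apply sum_le_sum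
  intro A _
  by_cases hA : A.card ≤ 2
  · simp [hW A hA]
  · push Not at hA
    rw [mul_pow, ← pow_mul]
    apply mul_le_mul_of_nonneg_right _ (sq_nonneg _)
    exact pow_le_pow_of_le_one h0 h1 (by omega)

lemma T_add (h : ℝ) (V W : Q k → ℝ) (s : Q k) :
    T h (fun t => V t + W t) s = T h V s + T h W s := by
  unfold T
  rw [← av_add]
  congr 1
  funext t
  ring

/-- on the first level the noise operator is multiplication by `h` -/
lemma av_ker_mul (h : ℝ) (i : Fin k) : av (fun u : Q k => ker h u * r (u i)) = h := by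
  have h1 : ∀ u : Q k, ker h u * r (u i) =
      ∏ j, ((1 + h * r (u j)) * (if j = i then r (u j) else 1)) := by
    intro u
    rw [prod_mul_distrib]
    unfold ker
    simp
  simp_rw [h1]
  rw [av_prod (fun j u => (1 + h * r u) * (if j = i then r u else 1))]
  rw [prod_eq_single i]
  · simp
    ring
  · intro j _ hj
    simp [hj]
    ring
  · intro h; exact absurd (mem_univ i) h

lemma T_first (h : ℝ) (b : Fin k → ℝ) (s : Q k) :
    T h (fun t => ∑ i, r (t i) * b i) s = h * ∑ i, r (s i) * b i := by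
  rw [T_eq']
  have h1 : ∀ u : Q k, ker h u * ∑ i, r ((s * u) i) * b i =
      ∑ i, (r (s i) * b i) * (ker h u * r (u i)) := by
    intro u
    rw [mul_sum]
    apply sum_congr rfl
    intro i _
    simp only [Pi.mul_apply, r_mul]
    ring
  simp_rw [h1]
  rw [av_sum]
  simp_rw [av_mul_left, av_ker_mul]
  rw [mul_sum]
  apply sum_congr rfl
  intro i _
  ring

/-- weighted Jensen for the square -/
lemma jensen_sq (ρ g : Q k → ℝ) (hρ : ∀ u, 0 ≤ ρ u) (h1 : av ρ = 1) :
    (av (fun u => ρ u * g u)) ^ 2 ≤ av (fun u => ρ u * g u ^ 2) := by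
  set m := av (fun u => ρ u * g u) with hm
  have h2 : 0 ≤ av (fun u => ρ u * (g u - m) ^ 2) :=
    av_nonneg fun u => mul_nonneg (hρ u) (sq_nonneg _)
  have h3 : av (fun u => ρ u * (g u - m) ^ 2) =
      av (fun u => ρ u * g u ^ 2) - 2 * m * av (fun u => ρ u * g u) + m ^ 2 * av ρ := by
    have e : (fun u => ρ u * (g u - m) ^ 2) =
        fun u => (ρ u * g u ^ 2 - (2 * m) * (ρ u * g u)) + m ^ 2 * ρ u := by
      funext u; ring
    rw [e, av_add, av_sub, av_mul_left, av_mul_left]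
  rw [h3, h1, ← hm] at h2
  nlinarith

lemma sq_av_le (g : Q k → ℝ) : (av g) ^ 2 ≤ av (fun u => g u ^ 2) := by
  have := jensen_sq (fun _ => 1) g (fun _ => zero_le_one) (av_const 1)
  simpa using this

/-- the noise operator is a contraction on `L₂(ℓ₁)` -/
lemma T_contract_l1 {ι : Type*} [Fintype ι] (h : ℝ) (h0 : 0 ≤ h) (h1 : h ≤ 1)
    (F : Q k → ι → ℝ) :
    av (fun s => (∑ j, |T h (fun t => F t j) s|) ^ 2) ≤ av (fun s => (∑ j, |F s j|) ^ 2) := by
  have step1 : ∀ s : Q k, (∑ j, |T h (fun t => F t j) s|) ≤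
      av (fun u => ker h u * ∑ j, |F (s * u) j|) := by
    intro s
    simp_rw [mul_sum]
    rw [av_sum]
    apply sum_le_sum
    intro j _
    rw [T_eq']
    refine (abs_av_le _).trans (le_of_eq ?_)
    congr 1
    funext u
    rw [abs_mul, abs_of_nonneg (ker_nonneg h0 h1 u)]
  have step2 : ∀ s : Q k, (∑ j, |T h (fun t => F t j) s|) ^ 2 ≤
      av (fun u => ker h u * (∑ j, |F (s * u) j|) ^ 2) := by
    intro s
    refine le_trans ?_ (jensen_sq (ker h) (fun u => ∑ j, |F (s * u) j|)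
      (ker_nonneg h0 h1) (av_ker h))
    exact pow_le_pow_left₀ (sum_nonneg fun j _ => abs_nonneg _) (step1 s) 2
  refine (av_mono step2).trans (le_of_eq ?_)
  rw [av_comm]
  have : ∀ u : Q k, av (fun s => ker h u * (∑ j, |F (s * u) j|) ^ 2) =
      ker h u * av (fun s => (∑ j, |F s j|) ^ 2) := by
    intro u
    rw [av_mul_left]
    congr 1
    exact av_shift u (fun s => (∑ j, |F s j|) ^ 2)
  simp_rw [this]
  have h2 : av (fun u : Q k => ker h u * av (fun s => (∑ j, |F s j|) ^ 2)) =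
      av (fun s => (∑ j, |F s j|) ^ 2) * av (ker h : Q k → ℝ) := by
    rw [← av_mul_left]
    congr 1
    funext u
    ring
  rw [h2, av_ker, mul_one]

/-! ### Khinchine's inequality -/

lemma av_succ (g : Q (k + 1) → ℝ) :
    av g = (av (fun s : Q k => g (Fin.cons 1 s)) + av (fun s : Q k => g (Fin.cons (-1) s))) / 2 := by
  unfold av
  have h : ∑ s : Q (k + 1), g s = ∑ p : ℤˣ × Q k, g (Fin.cons p.1 p.2) := by
    refine (Fintype.sum_equiv (Fin.consEquiv (fun _ : Fin (k + 1) => ℤˣ)) _ _ ?_).symm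
    intro p
    rfl
  rw [h, Fintype.sum_prod_type, sum_units, pow_succ]
  field_simp

lemma second_moment (b : Fin k → ℝ) : av (fun s : Q k => (∑ i, r (s i) * b i) ^ 2) = ∑ i, b i ^ 2 := by
  induction k with
  | zero => simp [av]
  | succ k ih =>
    rw [av_succ]
    simp_rw [Fin.sum_univ_succ, Fin.cons_zero, Fin.cons_succ]
    rw [← ih (fun i => b i.succ)]
    rw [← av_add]
    rw [show b 0 ^ 2 + av (fun s : Q k => (∑ i, r (s i) * b i.succ) ^ 2) =
      av (fun s : Q k => b 0 ^ 2 + (∑ i, r (s i) * b i.succ) ^ 2) by rw [av_add, av_const]]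
    rw [div_eq_inv_mul, ← av_mul_left]
    congr 1
    funext s
    simp
    ring

lemma fourth_moment (b : Fin k → ℝ) :
    av (fun s : Q k => (∑ i, r (s i) * b i) ^ 4) ≤ 3 * (∑ i, b i ^ 2) ^ 2 := by
  induction k with
  | zero => simp [av]
  | succ k ih =>
    rw [av_succ]
    simp_rw [Fin.sum_univ_succ, Fin.cons_zero, Fin.cons_succ]
    have h1 := ih (fun i => b i.succ)
    have h2 := second_moment (fun i => b i.succ)
    rw [← av_add, div_eq_inv_mul, ← av_mul_left]
    have h3 : (fun s : Q k => 2⁻¹ * ((r 1 * b 0 + ∑ i, r (s i) * b i.succ) ^ 4 +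
        (r (-1) * b 0 + ∑ i, r (s i) * b i.succ) ^ 4)) =
        fun s : Q k => (b 0 ^ 4 + 6 * b 0 ^ 2 * (∑ i, r (s i) * b i.succ) ^ 2) +
          (∑ i, r (s i) * b i.succ) ^ 4 := by
      funext s
      simp
      ring
    rw [h3, av_add, av_add, av_const, av_mul_left, h2]
    nlinarith [sq_nonneg (b 0), sum_nonneg (fun (i : Fin k) (_ : i ∈ univ) => sq_nonneg (b i.succ)),
      sq_nonneg (b 0 ^ 2)]

lemma khinchine (b : Fin k → ℝ) :
    (5 / 9) * Real.sqrt (∑ i, b i ^ 2) ≤ av (fun s : Q k => |∑ i, r (s i) * b i|) := by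
  set σ := Real.sqrt (∑ i, b i ^ 2) with hσ
  have hs0 : 0 ≤ ∑ i, b i ^ 2 := sum_nonneg fun i _ => sq_nonneg _
  have hσ2 : σ ^ 2 = ∑ i, b i ^ 2 := Real.sq_sqrt hs0
  rcases eq_or_lt_of_le (Real.sqrt_nonneg (∑ i, b i ^ 2)) with h0 | hpos
  · rw [hσ, ← h0, mul_zero]
    exact av_nonneg fun s => abs_nonneg _
  · rw [← hσ] at hpos
    have key : ∀ s : Q k, σ ^ 2 * (∑ i, r (s i) * b i) ^ 2 - (4 / 27) * (∑ i, r (s i) * b i) ^ 4 ≤
        σ ^ 3 * |∑ i, r (s i) * b i| := by
      intro s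
      set u := |∑ i, r (s i) * b i| with hu
      have hu0 : 0 ≤ u := abs_nonneg _
      have e2 : (∑ i, r (s i) * b i) ^ 2 = u ^ 2 := by rw [hu, sq_abs]
      have e4 : (∑ i, r (s i) * b i) ^ 4 = u ^ 4 := by
        rw [show (4 : ℕ) = 2 * 2 by norm_num, pow_mul, e2, ← pow_mul]
      rw [e2, e4]
      have : σ ^ 3 * u - (σ ^ 2 * u ^ 2 - 4 / 27 * u ^ 4) =
          u * ((4 / 27) * (u - 3 / 2 * σ) ^ 2 * (u + 3 * σ)) := by ring
      have h3 : 0 ≤ u * ((4 / 27) * (u - 3 / 2 * σ) ^ 2 * (u + 3 * σ)) := by positivity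
      linarith
    have h1 := av_mono key
    rw [av_sub, av_mul_left, av_mul_left, av_mul_left, second_moment, ← hσ2] at h1
    have h2 := fourth_moment b
    rw [← hσ2] at h2
    have h4 : σ ^ 3 * ((5 / 9) * σ) ≤ σ ^ 3 * av (fun s : Q k => |∑ i, r (s i) * b i|) := by
      nlinarith
    exact le_of_mul_le_mul_left h4 (by positivity)

end Pool.Agent.Helper24.Cube
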