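import Pool.Agent.Helper24.Cotype.Cube

/-!
# The deterministic part: cotype 2 of a quotient of `ℓ₁^N` by a subspace on which the
`ℓ₁`-norm and the `ℓ₂`-norm (times `√N`) are equivalent.
-/

set_option autoImplicit false

open Finset Pool.Agent.Helper24.Cube

namespace Pool.Agent.Helper24.Det

variable {k N : ℕ} {E : Type*} [AddCommGroup E] [Module ℝ E]

/-- the linear map `a ↦ ∑ a j • x j` -/
def G (x : Fin N → E) (a : Fin N → ℝ) : E := ∑ j, a j • x j

/-- the `ℓ₁`-norm -/
def l1 (a : Fin N → ℝ) : ℝ := ∑ j, |a j|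

lemma l1_nonneg (a : Fin N → ℝ) : 0 ≤ l1 a := sum_nonneg fun _ _ => abs_nonneg _

lemma l1_sub_le (a b : Fin N → ℝ) : l1 (fun j => a j - b j) ≤ l1 a + l1 b := by
  unfold l1
  rw [← sum_add_distrib]
  exact sum_le_sum fun j _ => abs_sub _ _

lemma l1_neg (a : Fin N → ℝ) : l1 (fun j => - a j) = l1 a := by simp [l1]

lemma G_neg (x : Fin N → E) (a : Fin N → ℝ) : G x (fun j => - a j) = - G x a := by
  simp [G]

lemma G_sub (x : Fin N → E) (a b : Fin N → ℝ) :
    G x (fun j => a j - b j) = G x a - G x b := by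
  simp [G, sub_smul, sum_sub_distrib]

lemma G_half (x : Fin N → E) (a b : Fin N → ℝ) :
    G x (fun j => (a j - b j) / 2) = (1 / 2 : ℝ) • (G x a - G x b) := by
  rw [← G_sub]
  unfold G
  rw [smul_sum]
  apply sum_congr rfl
  intro j _
  rw [smul_smul]
  congr 1
  ring

/-- `(∑ |a|)^2 ≤ N ∑ a^2` -/
lemma l1_sq_le (a : Fin N → ℝ) : (l1 a) ^ 2 ≤ N * ∑ j, a j ^ 2 := by
  unfold l1
  have := sq_sum_le_card_mul_sum_sq (s := (univ : Finset (Fin N))) (f := fun j => |a j|)
  simpa [sq_abs] using this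

/-- reverse triangle inequality used for the cotype of `ℓ₁`: the `ℓ₂`-norm over `i` of the
`ℓ₁`-norms over `j` is at most the `ℓ₁`-norm over `j` of the `ℓ₂`-norms over `i`. -/
lemma sum_l1_sq_le (X : Fin k → Fin N → ℝ) :
    ∑ i, (l1 (X i)) ^ 2 ≤ (∑ j, Real.sqrt (∑ i, X i j ^ 2)) ^ 2 := by
  unfold l1
  have h1 : ∀ i, (∑ j, |X i j|) ^ 2 = ∑ j, ∑ j', |X i j| * |X i j'| := by
    intro i; rw [sq, sum_mul_sum]
  simp_rw [h1]
  rw [sq, sum_mul_sum, sum_comm]
  apply sum_le_sum
  intro j _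
  rw [sum_comm]
  apply sum_le_sum
  intro j' _
  have h2 := Finset.sum_mul_sq_le_sq_mul_sq univ (fun i => |X i j|) (fun i => |X i j'|)
  simp only [sq_abs] at h2
  have h3 : 0 ≤ ∑ i, |X i j| * |X i j'| :=
    sum_nonneg fun i _ => mul_nonneg (abs_nonneg _) (abs_nonneg _)
  rw [← Real.sqrt_mul (sum_nonneg fun i _ => sq_nonneg _)]
  exact Real.le_sqrt_of_sq_le h2

/-- cotype 2 of `ℓ₁` -/
lemma cotype_l1 (X : Fin k → Fin N → ℝ) :
    (25 / 81) * ∑ i, (l1 (X i)) ^ 2 ≤
      av (fun s : Q k => (l1 (fun j => ∑ i, r (s i) * X i j)) ^ 2) := by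
  have h1 : (5 / 9) * ∑ j, Real.sqrt (∑ i, X i j ^ 2) ≤
      av (fun s : Q k => l1 (fun j => ∑ i, r (s i) * X i j)) := by
    unfold l1
    rw [av_sum, mul_sum]
    exact sum_le_sum fun j _ => khinchine (fun i => X i j)
  have h0 : 0 ≤ ∑ j, Real.sqrt (∑ i, X i j ^ 2) := sum_nonneg fun _ _ => Real.sqrt_nonneg _
  have h2 := sum_l1_sq_le X
  have h3 := sq_av_le (fun s : Q k => l1 (fun j => ∑ i, r (s i) * X i j))
  have h4 : ((5 / 9) * ∑ j, Real.sqrt (∑ i, X i j ^ 2)) ^ 2 ≤
      (av (fun s : Q k => l1 (fun j => ∑ i, r (s i) * X i j))) ^ 2 :=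
    pow_le_pow_left₀ (by positivity) h1 2
  nlinarith

/-- the constant -/
noncomputable def D (κ : ℝ) : ℝ := (81 / 25) * ((4 / 3) * (8 / κ + 1 / 4))

lemma D_pos {κ : ℝ} (h : 0 < κ) : 0 < D κ := by unfold D; positivity

/-- The main estimate for lifted functions. -/
lemma main_lift (x : Fin N → E) {κ : ℝ} (h0 : 0 < κ) (h1 : κ ≤ 1)
    (hker : ∀ a : Fin N → ℝ, G x a = 0 → κ ^ 2 * (N * ∑ j, a j ^ 2) ≤ (l1 a) ^ 2)
    (y : Fin k → E) (F : Q k → Fin N → ℝ) (hF : ∀ s, G x (F s) = ∑ i, r (s i) • y i)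
    (hodd : ∀ s j, F (-s) j = - F s j) :
    ∃ X : Fin k → Fin N → ℝ, (∀ i, G x (X i) = y i) ∧
      (25 / 81) * ∑ i, (l1 (X i)) ^ 2 ≤ (4 / 3) * (8 / κ + 1 / 4) * av (fun s => (l1 (F s)) ^ 2) := by
  let X : Fin k → Fin N → ℝ := fun i j => av (fun s => r (s i) * F s j)
  let R : Q k → Fin N → ℝ := fun s j => ∑ i, r (s i) * X i j
  let W : Q k → Fin N → ℝ := fun s j => F s j - R s j
  have horth : ∀ i l : Fin k, av (fun s : Q k => r (s i) * r (s l)) = if i = l then 1 else 0 := by
    intro i l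
    have := av_w_mul_w ({i} : Finset (Fin k)) {l}
    simpa [w_singleton] using this
  have hGX : ∀ i, G x (X i) = y i := by
    intro i
    have e1 : G x (X i) = (2 ^ k : ℝ)⁻¹ • ∑ s : Q k, r (s i) • G x (F s) := by
      unfold G
      simp_rw [smul_sum, smul_smul]
      rw [sum_comm]
      apply sum_congr rfl
      intro j _
      rw [← sum_smul]
      congr 1
      show av (fun s => r (s i) * F s j) = _
      unfold av
      rw [mul_sum]
    rw [e1]
    simp_rw [hF, smul_sum, smul_smul]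
    rw [sum_comm]
    have e2 : ∀ l, ∑ s : Q k, ((2 ^ k : ℝ)⁻¹ * (r (s i) * r (s l))) • y l =
        (if i = l then (1 : ℝ) else 0) • y l := by
      intro l
      rw [← sum_smul, ← horth i l]
      congr 1
      unfold av
      rw [mul_sum]
    have e3 : ∀ l, ∑ s : Q k, ((2 ^ k : ℝ)⁻¹ * r (s i) * r (s l)) • y l =
        (if i = l then (1 : ℝ) else 0) • y l := by
      intro l
      rw [← e2 l]
      apply sum_congr rfl
      intro s _
      rw [mul_assoc]
    simp_rw [← mul_assoc] 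
    simp_rw [e3]
    simp
  refine ⟨X, hGX, ?_⟩
  have hGR : ∀ s, G x (R s) = ∑ i, r (s i) • y i := by
    intro s
    simp_rw [← hGX]
    unfold G
    simp only [R]
    simp_rw [sum_smul, smul_sum, smul_smul]
    rw [sum_comm]
  have hGW : ∀ s, G x (W s) = 0 := by
    intro s
    have : G x (W s) = G x (F s) - G x (R s) := G_sub x (F s) (R s)
    rw [this, hF, hGR, sub_self]
  have hRodd : ∀ s j, R (-s) j = - R s j := by
    intro s j
    simp [R]
  have hWodd : ∀ s j, W (-s) j = - W s j := by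
    intro s j
    show F (-s) j - R (-s) j = - (F s j - R s j)
    rw [hodd, hRodd]; ring
  -- Walsh coefficients of `W`
  have hco : ∀ j, ∀ A : Finset (Fin k), A.card ≤ 2 → co (fun s => W s j) A = 0 := by
    intro j A hA
    by_cases hA1 : A.card = 1
    · obtain ⟨i, rfl⟩ := card_eq_one.1 hA1
      unfold co
      simp_rw [w_singleton]
      have e1 : (fun s : Q k => W s j * r (s i)) =
          fun s : Q k => r (s i) * F s j - ∑ l, X l j * (r (s i) * r (s l)) := by
        funext s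
        show (F s j - ∑ l, r (s l) * X l j) * r (s i) = _
        rw [sub_mul, sum_mul]
        congr 1
        · ring
        · apply sum_congr rfl
          intro l _
          ring
      rw [e1, av_sub, av_sum]
      simp_rw [av_mul_left, horth]
      simp [X]
    · have hev : Even A.card := by
        have : A.card = 0 ∨ A.card = 2 := by omega
        rcases this with h | h <;> rw [h] <;> decide
      unfold co
      have e1 : av (fun t => W t j * w A t) = - av (fun t => W t j * w A t) := by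
        conv_lhs => rw [← av_shift' (-1 : Q k)]
        have e0 : (fun s : Q k => W (-1 * s) j * w A (-1 * s)) =
            fun s => (-1 : ℝ) * (W s j * w A s) := by
          funext t
          rw [neg_one_mul, hWodd, w_neg, hev.neg_one_pow]
          ring
        rw [e0, av_mul_left]
        ring
      linarith
  -- choice of `h`
  obtain ⟨h, hh0, hh1, hh2⟩ : ∃ h : ℝ, 0 < h ∧ h ≤ 1 ∧ h ^ 2 = κ / 4 := by
    refine ⟨Real.sqrt (κ / 4), Real.sqrt_pos.2 (by positivity), ?_, Real.sq_sqrt (by positivity)⟩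
    rw [Real.sqrt_le_one]
    linarith
  set AF := av (fun s => (l1 (F s)) ^ 2) with hAF
  set AR := av (fun s => (l1 (R s)) ^ 2) with hAR
  set AW := av (fun s => (l1 (W s)) ^ 2) with hAW
  have hAWle : AW ≤ 2 * AF + 2 * AR := by
    rw [hAW, hAF, hAR, ← av_mul_left, ← av_mul_left, ← av_add]
    apply av_mono
    intro s
    have h2 : l1 (W s) ≤ l1 (F s) + l1 (R s) := l1_sub_le (F s) (R s)
    have h3 := l1_nonneg (W s)
    nlinarith [sq_nonneg (l1 (F s) - l1 (R s)), l1_nonneg (F s), l1_nonneg (R s)]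
  have hTF : av (fun s => (∑ j, |T h (fun t => F t j) s|) ^ 2) ≤ AF :=
    T_contract_l1 h hh0.le hh1 F
  have hTW : av (fun s => (∑ j, |T h (fun t => W t j) s|) ^ 2) ≤ h ^ 6 / κ ^ 2 * AW := by
    calc av (fun s => (∑ j, |T h (fun t => W t j) s|) ^ 2)
        ≤ av (fun s => N * ∑ j, (T h (fun t => W t j) s) ^ 2) := by
          apply av_mono
          intro s
          exact l1_sq_le (fun j => T h (fun t => W t j) s)
      _ = N * ∑ j, av (fun s => (T h (fun t => W t j) s) ^ 2) := by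
          rw [av_mul_left, av_sum]
      _ ≤ N * ∑ j, h ^ 6 * av (fun s => (W s j) ^ 2) := by
          apply mul_le_mul_of_nonneg_left _ (Nat.cast_nonneg _)
          apply sum_le_sum
          intro j _
          exact T_contract h hh0.le hh1 (fun s => W s j) (hco j)
      _ = h ^ 6 / κ ^ 2 * av (fun s => κ ^ 2 * (N * ∑ j, (W s j) ^ 2)) := by
          rw [av_mul_left, av_mul_left, av_sum, ← mul_sum]
          field_simp
      _ ≤ h ^ 6 / κ ^ 2 * AW := by
          apply mul_le_mul_of_nonneg_left _ (by positivity)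
          apply av_mono
          intro s
          exact hker (W s) (hGW s)
  have hRle : h ^ 2 * AR ≤ 2 * AF + 2 * (h ^ 6 / κ ^ 2 * AW) := by
    have e1 : h ^ 2 * AR ≤ 2 * av (fun s => (∑ j, |T h (fun t => F t j) s|) ^ 2) +
        2 * av (fun s => (∑ j, |T h (fun t => W t j) s|) ^ 2) := by
      rw [hAR, ← av_mul_left, ← av_mul_left, ← av_mul_left, ← av_add]
      apply av_mono
      intro s
      have e2 : h * l1 (R s) ≤ (∑ j, |T h (fun t => F t j) s|) + ∑ j, |T h (fun t => W t j) s| := by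
        unfold l1
        rw [mul_sum, ← sum_add_distrib]
        apply sum_le_sum
        intro j _
        have e3 : T h (fun t => F t j) s = h * R s j + T h (fun t => W t j) s := by
          rw [← T_first h (fun i => X i j) s, ← T_add]
          congr 1
          funext t
          show F t j = (∑ i, r (t i) * X i j) + (F t j - ∑ i, r (t i) * X i j)
          ring
        have e4 : h * R s j = T h (fun t => F t j) s - T h (fun t => W t j) s := by
          rw [e3]; ring
        rw [← abs_of_pos hh0, ← abs_mul, abs_of_pos hh0, e4]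
        exact abs_sub _ _
      have e5 : 0 ≤ h * l1 (R s) := mul_nonneg hh0.le (l1_nonneg _)
      nlinarith [sq_nonneg ((∑ j, |T h (fun t => F t j) s|) - ∑ j, |T h (fun t => W t j) s|)]
    linarith
  have h6 : h ^ 6 / κ ^ 2 = κ / 64 := by
    rw [show h ^ 6 = (h ^ 2) ^ 3 by ring, hh2]
    field_simp
    norm_num
  rw [h6, hh2] at hRle
  have hAF0 : 0 ≤ AF := av_nonneg fun s => sq_nonneg _
  have hfin : AR ≤ (4 / 3) * (8 / κ + 1 / 4) * AF := by
    have e1 : κ / 4 * AR ≤ 2 * AF + 2 * (κ / 64 * (2 * AF + 2 * AR)) := by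
      refine hRle.trans ?_
      have : κ / 64 * AW ≤ κ / 64 * (2 * AF + 2 * AR) :=
        mul_le_mul_of_nonneg_left hAWle (by positivity)
      linarith
    have e2 : κ * (3 / 4 * AR) ≤ κ * ((8 / κ + 1 / 4) * AF) := by
      have e3 : κ * ((8 / κ + 1 / 4) * AF) = 8 * AF + κ / 4 * AF := by
        field_simp
      rw [e3]
      linarith
    have e4 := le_of_mul_le_mul_left e2 h0
    linarith
  exact (cotype_l1 X).trans hfin

/-- Cotype 2 for a functional `p` that behaves like the quotient norm of `ℓ₁^N` under `G x`. -/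
theorem cotype_two (x : Fin N → E) (p : E → ℝ) (hp0 : ∀ z, 0 ≤ p z)
    (hp1 : ∀ a, p (G x a) ≤ l1 a)
    (hp2 : ∀ z, ∀ δ > 0, ∃ a, G x a = z ∧ l1 a ≤ p z + δ)
    {κ : ℝ} (h0 : 0 < κ) (h1 : κ ≤ 1)
    (hker : ∀ a : Fin N → ℝ, G x a = 0 → κ ^ 2 * (N * ∑ j, a j ^ 2) ≤ (l1 a) ^ 2)
    (y : Fin k → E) :
    ∑ i, p (y i) ^ 2 ≤ D κ * av (fun s => p (∑ i, r (s i) • y i) ^ 2) := by
  have hpneg : ∀ z, p (-z) ≤ p z := by
    intro z
    apply le_of_forall_pos_le_add
    intro δ hδ
    obtain ⟨a, ha, ha2⟩ := hp2 z δ hδ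
    have := hp1 (fun j => - a j)
    rw [G_neg, ha, l1_neg] at this
    exact this.trans ha2
  have key : ∀ δ > 0, ∑ i, p (y i) ^ 2 ≤
      D κ * av (fun s => (p (∑ i, r (s i) • y i) + δ) ^ 2) := by
    intro δ hδ
    have : ∀ s : Q k, ∃ a, G x a = (∑ i, r (s i) • y i) ∧ l1 a ≤ p (∑ i, r (s i) • y i) + δ :=
      fun s => hp2 _ δ hδ
    choose F0 hF0 hF0' using this
    let F : Q k → Fin N → ℝ := fun s j => (F0 s j - F0 (-s) j) / 2
    have hneg : ∀ s : Q k, (∑ i, r ((-s) i) • y i) = - ∑ i, r (s i) • y i := by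
      intro s
      simp
    have hF : ∀ s, G x (F s) = ∑ i, r (s i) • y i := by
      intro s
      have e1 : G x (F s) = (1 / 2 : ℝ) • (G x (F0 s) - G x (F0 (-s))) := G_half x (F0 s) (F0 (-s))
      rw [e1, hF0, hF0, hneg, sub_neg_eq_add, ← two_smul ℝ, smul_smul]
      norm_num
    have hodd : ∀ s j, F (-s) j = - F s j := by
      intro s j
      simp only [F, neg_neg]
      ring
    have hFle : ∀ s, l1 (F s) ≤ p (∑ i, r (s i) • y i) + δ := by
      intro s
      have e1 : l1 (F s) ≤ (l1 (F0 s) + l1 (F0 (-s))) / 2 := by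
        unfold l1
        rw [← sum_add_distrib, sum_div]
        apply sum_le_sum
        intro j _
        show |(F0 s j - F0 (-s) j) / 2| ≤ _
        rw [abs_div, abs_two]
        have := abs_sub (F0 s j) (F0 (-s) j)
        linarith
      have e2 := hF0' s
      have e3 := hF0' (-s)
      rw [hneg] at e3
      have e4 := hpneg (∑ i, r (s i) • y i)
      linarith
    obtain ⟨X, hX, hX2⟩ := main_lift x h0 h1 hker y F hF hodd
    have e1 : ∑ i, p (y i) ^ 2 ≤ ∑ i, (l1 (X i)) ^ 2 := by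
      apply sum_le_sum
      intro i _
      apply pow_le_pow_left₀ (hp0 _)
      rw [← hX i]
      exact hp1 _
    have e2 : av (fun s => (l1 (F s)) ^ 2) ≤ av (fun s => (p (∑ i, r (s i) • y i) + δ) ^ 2) := by
      apply av_mono
      intro s
      exact pow_le_pow_left₀ (l1_nonneg _) (hFle s) 2
    have e3 : 0 ≤ (4 / 3) * (8 / κ + 1 / 4) := by positivity
    have e4 := mul_le_mul_of_nonneg_left e2 e3
    unfold D
    nlinarith
  -- let `δ → 0`
  set A := av (fun s => p (∑ i, r (s i) • y i) ^ 2) with hA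
  set B := av (fun s => p (∑ i, r (s i) • y i)) with hB
  have key2 : ∀ δ > 0, ∑ i, p (y i) ^ 2 ≤ D κ * (A + 2 * δ * B + δ ^ 2) := by
    intro δ hδ
    refine (key δ hδ).trans (le_of_eq ?_)
    congr 1
    rw [hA, hB, ← av_mul_left]
    have : (δ : ℝ) ^ 2 = av (fun _ : Q k => δ ^ 2) := (av_const _).symm
    rw [this, ← av_add, ← av_add]
    congr 1
    funext s
    ring
  have hlim : Filter.Tendsto (fun δ : ℝ => D κ * (A + 2 * δ * B + δ ^ 2)) (nhdsWithin 0 (Set.Ioi 0))
      (nhds (D κ * (A + 2 * 0 * B + 0 ^ 2))) := by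
    apply Filter.Tendsto.mono_left _ nhdsWithin_le_nhds
    apply Continuous.tendsto
    fun_prop
  have := ge_of_tendsto hlim (Filter.eventually_of_mem self_mem_nhdsWithin key2)
  simpa using this

end Pool.Agent.Helper24.Det
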