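import Pool.Agent.Helper24.Cotype.Indep

/-!
# The gauge of a symmetric polytope, and passage from cotype 2 to cotype `q`
-/

set_option autoImplicit false

open Finset WithLp MeasureTheory ProbabilityTheory
open scoped Pointwise
open Pool.Agent.Helper24.Prob (mu)
open Pool.Agent.Helper24.Det (G l1 l1_nonneg D D_pos cotype_two)
open Pool.Agent.Helper24.Cube (Q r av)

namespace Pool.Agent.Helper24.Final

section gauge

variable {E : Type*} [AddCommGroup E] [Module ℝ E] {N : ℕ}

/-- the symmetric polytope -/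
def poly (x : Fin N → E) : Set E := convexHull ℝ (Set.range x ∪ Set.range (fun i => - x i))

lemma zero_mem (hN : 0 < N) (x : Fin N → E) : (0 : E) ∈ poly x := by
  have h1 : x ⟨0, hN⟩ ∈ poly x := subset_convexHull ℝ _ (Or.inl ⟨_, rfl⟩)
  have h2 : - x ⟨0, hN⟩ ∈ poly x := subset_convexHull ℝ _ (Or.inr ⟨_, rfl⟩)
  have h3 := convex_convexHull ℝ (Set.range x ∪ Set.range (fun i => - x i)) h1 h2
    (show (0 : ℝ) ≤ 1 / 2 by norm_num) (show (0 : ℝ) ≤ 1 / 2 by norm_num) (by norm_num)
  unfold poly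
  simpa using h3

lemma G_mem (hN : 0 < N) (x : Fin N → E) (a : Fin N → ℝ) (ha : l1 a ≤ 1) : G x a ∈ poly x := by
  -- write `a j • x j = |a j| • (sign (a j) • x j)`
  let z : Option (Fin N) → E := fun o => o.elim 0 (fun j => if 0 ≤ a j then x j else - x j)
  let w : Option (Fin N) → ℝ := fun o => o.elim (1 - l1 a) (fun j => |a j|)
  have h1 : ∑ o, w o • z o = G x a := by
    rw [Fintype.sum_option]
    simp only [w, z, Option.elim, smul_zero, zero_add, G]
    apply sum_congr rfl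
    intro j _
    split_ifs with h
    · rw [abs_of_nonneg h]
    · push Not at h
      rw [abs_of_neg h, neg_smul_neg]
  rw [← h1]
  apply (convex_convexHull ℝ (Set.range x ∪ Set.range (fun i => - x i))).sum_mem
  · intro o _
    cases o with
    | none => simp only [w, Option.elim]; linarith
    | some j => exact abs_nonneg _
  · rw [Fintype.sum_option]
    simp only [w, Option.elim, l1]
    ring
  · intro o _
    cases o with
    | none => exact zero_mem hN x
    | some j =>
      simp only [z, Option.elim]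
      split_ifs
      · exact subset_convexHull ℝ _ (Or.inl ⟨_, rfl⟩)
      · exact subset_convexHull ℝ _ (Or.inr ⟨_, rfl⟩)

lemma poly_subset (x : Fin N → E) : poly x ⊆ {z | ∃ a, G x a = z ∧ l1 a ≤ 1} := by
  apply convexHull_min
  · have hs : ∀ (i : Fin N) (c : ℝ), |c| = 1 → G x (Pi.single i c) = c • x i ∧
        l1 (Pi.single i c : Fin N → ℝ) ≤ 1 := by
      intro i c hc
      constructor
      · simp only [G]
        rw [sum_eq_single i]
        · simp
        · intro j _ hj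
          simp [Pi.single_eq_of_ne hj]
        · simp
      · simp only [l1]
        rw [sum_eq_single i]
        · simp [hc]
        · intro j _ hj
          simp [Pi.single_eq_of_ne hj]
        · simp
    rintro z (⟨i, rfl⟩ | ⟨i, rfl⟩)
    · exact ⟨Pi.single i 1, by simpa using (hs i 1 (by simp)).1, (hs i 1 (by simp)).2⟩
    · exact ⟨Pi.single i (-1), by simpa using (hs i (-1) (by simp)).1, (hs i (-1) (by simp)).2⟩
  · rintro z ⟨a, rfl, ha⟩ z' ⟨b, rfl, hb⟩ s t hs ht hst
    refine ⟨fun j => s * a j + t * b j, ?_, ?_⟩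
    · simp only [G, smul_sum, smul_smul, ← sum_add_distrib, add_smul]
    · calc l1 (fun j => s * a j + t * b j) ≤ ∑ j, (s * |a j| + t * |b j|) := by
            apply sum_le_sum
            intro j _
            refine (abs_add_le _ _).trans (le_of_eq ?_)
            rw [abs_mul, abs_mul, abs_of_nonneg hs, abs_of_nonneg ht]
        _ = s * l1 a + t * l1 b := by simp only [l1, mul_sum, sum_add_distrib]
        _ ≤ s * 1 + t * 1 := by gcongr
        _ = 1 := by linarith

lemma G_smul (x : Fin N → E) (c : ℝ) (a : Fin N → ℝ) : G x (fun j => c * a j) = c • G x a := by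
  simp [G, smul_sum, smul_smul]

lemma l1_smul (c : ℝ) (a : Fin N → ℝ) : l1 (fun j => c * a j) = |c| * l1 a := by
  simp [l1, mul_sum, abs_mul]

lemma mem_smul_poly (hN : 0 < N) (x : Fin N → E) (a : Fin N → ℝ) {c : ℝ} (hc : 0 < c)
    (ha : l1 a ≤ c) : G x a ∈ c • poly x := by
  rw [Set.mem_smul_set_iff_inv_smul_mem₀ hc.ne', ← G_smul]
  apply G_mem hN
  rw [l1_smul, abs_of_pos (inv_pos.2 hc), inv_mul_le_iff₀ hc, mul_one]
  exact ha

lemma gauge_G_le (hN : 0 < N) (x : Fin N → E) (a : Fin N → ℝ) : gauge (poly x) (G x a) ≤ l1 a := by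
  apply le_of_forall_pos_le_add
  intro δ hδ
  have h0 := l1_nonneg a
  exact gauge_le_of_mem (by linarith) (mem_smul_poly hN x a (by linarith) (by linarith))

lemma exists_le_gauge (hN : 0 < N) (x : Fin N → E) (hx : ∀ z, ∃ a, G x a = z) (z : E) {δ : ℝ}
    (hδ : 0 < δ) : ∃ a, G x a = z ∧ l1 a ≤ gauge (poly x) z + δ := by
  have hne : {c : ℝ | 0 < c ∧ z ∈ c • poly x}.Nonempty := by
    obtain ⟨a, rfl⟩ := hx z
    have h0 := l1_nonneg a
    exact ⟨l1 a + 1, by linarith, mem_smul_poly hN x a (by linarith) (by linarith)⟩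
  obtain ⟨c, ⟨hc, hz⟩, hc2⟩ := exists_lt_of_csInf_lt hne
    (show sInf {c : ℝ | 0 < c ∧ z ∈ c • poly x} < gauge (poly x) z + δ by
      rw [gauge]; linarith)
  obtain ⟨y, hy, rfl⟩ := hz
  obtain ⟨a, rfl, ha⟩ := poly_subset x hy
  refine ⟨fun j => c * a j, G_smul x c a, ?_⟩
  rw [l1_smul, abs_of_pos hc]
  calc c * l1 a ≤ c * 1 := mul_le_mul_of_nonneg_left ha hc.le
    _ ≤ _ := by linarith

end gauge

lemma sum_rpow_le {ι : Type*} (s : Finset ι) (f : ι → ℝ) (hf : ∀ i ∈ s, 0 ≤ f i) {t : ℝ}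
    (ht : 1 ≤ t) : ∑ i ∈ s, f i ^ t ≤ (∑ i ∈ s, f i) ^ t := by
  classical
  induction s using Finset.induction_on with
  | empty => simp [Real.zero_rpow (by linarith : t ≠ 0)]
  | insert i s hi ih =>
    rw [sum_insert hi, sum_insert hi]
    have h1 := ih (fun j hj => hf j (mem_insert_of_mem hj))
    have h2 := Real.add_rpow_le_rpow_add (hf i (mem_insert_self _ _))
      (sum_nonneg fun j hj => hf j (mem_insert_of_mem hj)) ht
    linarith

lemma sq_rpow {p q : ℝ} (hp : 0 ≤ p) : (p ^ 2) ^ (q / 2) = p ^ q := by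
  rw [← Real.rpow_natCast p 2, ← Real.rpow_mul hp]
  congr 1
  push_cast
  ring

/-- cotype 2 implies cotype `q` with the same constant -/
lemma cotype_q {k : ℕ} (a : Fin k → ℝ) (ha : ∀ i, 0 ≤ a i) (b : Q k → ℝ) (hb : ∀ s, 0 ≤ b s)
    {D : ℝ} (hD : 0 < D) (h : ∑ i, a i ^ 2 ≤ D * av (fun s => b s ^ 2)) {q : ℝ} (hq : 2 ≤ q) :
    (√D) ^ (-q) * ∑ i, a i ^ q ≤ (1 / 2 ^ k) * ∑ s, b s ^ q := by
  have hsD : 0 < √D := Real.sqrt_pos.2 hD
  have h1 : ∑ i, a i ^ q ≤ (∑ i, a i ^ 2) ^ (q / 2) := by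
    have := sum_rpow_le univ (fun i => a i ^ 2) (fun i _ => sq_nonneg _)
      (show (1 : ℝ) ≤ q / 2 by linarith)
    simp_rw [sq_rpow (ha _)] at this
    exact this
  have h2 : (∑ i, a i ^ 2) ^ (q / 2) ≤ (D * av (fun s => b s ^ 2)) ^ (q / 2) :=
    Real.rpow_le_rpow (sum_nonneg fun i _ => sq_nonneg _) h (by linarith)
  have hav : 0 ≤ av (fun s => b s ^ 2) := Cube.av_nonneg fun s => sq_nonneg _
  have h3 : (D * av (fun s => b s ^ 2)) ^ (q / 2) = (√D) ^ q * (av (fun s => b s ^ 2)) ^ (q / 2) := by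
    rw [Real.mul_rpow hD.le hav]
    congr 1
    rw [← sq_rpow hsD.le, Real.sq_sqrt hD.le]
  have h4 : (av (fun s => b s ^ 2)) ^ (q / 2) ≤ (1 / 2 ^ k) * ∑ s, b s ^ q := by
    have := Real.rpow_arith_mean_le_arith_mean_rpow (univ : Finset (Q k)) (fun _ => 1 / 2 ^ k)
      (fun s => b s ^ 2) (fun _ _ => by positivity) (by
        rw [sum_const, nsmul_eq_mul, card_univ, Cube.card_Q]
        field_simp) (fun s _ => sq_nonneg _) (show (1 : ℝ) ≤ q / 2 by linarith)
    simp_rw [sq_rpow (hb _)] at this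
    rw [← mul_sum, ← mul_sum] at this
    simpa only [av, one_div] using this
  have h5 : ∑ i, a i ^ q ≤ (√D) ^ q * ((1 / 2 ^ k) * ∑ s, b s ^ q) :=
    h1.trans (h2.trans (h3.le.trans (mul_le_mul_of_nonneg_left h4 (by positivity))))
  rw [Real.rpow_neg hsD.le, inv_mul_le_iff₀ (by positivity)]
  exact h5

variable {n N : ℕ}

/-- linear independence of the first `n` vectors gives surjectivity -/
lemma surj_of_linearIndependent (hN : n ≤ N) (x : Fin N → EuclideanSpace ℝ (Fin n))
    (h : LinearIndependent ℝ (fun i : Fin n => x (Fin.castLE hN i))) :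
    ∀ z, ∃ a, G x a = z := by
  intro z
  have h1 : Submodule.span ℝ (Set.range (fun i : Fin n => x (Fin.castLE hN i))) = ⊤ := by
    apply h.span_eq_top_of_card_eq_finrank'
    rw [finrank_euclideanSpace_fin, Fintype.card_fin]
  have h2 : Submodule.span ℝ (Set.range x) = ⊤ := by
    rw [eq_top_iff, ← h1]
    apply Submodule.span_mono
    rintro _ ⟨i, rfl⟩
    exact ⟨_, rfl⟩
  have h3 : z ∈ Submodule.span ℝ (Set.range x) := by rw [h2]; trivial
  obtain ⟨c, hc⟩ := (Submodule.mem_span_range_iff_exists_fun ℝ).1 h3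
  exact ⟨c, hc⟩

/-- the main probabilistic statement -/
theorem main {K' : ℝ} (hK : 1 ≤ K') : ∃ C : ℝ, 0 < C ∧
    ∀ n N : ℕ, 0 < n → n ≤ N → (N : ℝ) ≤ K' * n →
      ∀ {Ω : Type*} [MeasurableSpace Ω] (P : Measure Ω) [IsProbabilityMeasure P]
        (X : Fin N → Ω → EuclideanSpace ℝ (Fin n)),
        (∀ i, HasLaw (X i) (stdGaussian (EuclideanSpace ℝ (Fin n))) P) → iIndepFun X P →
        P {ω | ¬ ∀ q : ℝ, 2 ≤ q → ∀ (k : ℕ) (y : Fin k → EuclideanSpace ℝ (Fin n)),
          C ^ (-q) * ∑ i, gauge (poly fun i => X i ω) (y i) ^ q ≤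
            (1 / 2 ^ k) * ∑ s : Fin k → ℤˣ,
              gauge (poly fun i => X i ω) (∑ i, ((s i : ℤ) : ℝ) • y i) ^ q} ≤
          ENNReal.ofReal (2 * Real.exp (-n)) := by
  obtain ⟨κ, h0, h1, hκ⟩ := Prob.good_prob hK
  refine ⟨√(D κ), Real.sqrt_pos.2 (D_pos h0), ?_⟩
  intro n N hn hnN hNK Ω _ P _ X hX hind
  have hN : 0 < N := by omega
  -- law of the whole family
  have hlaw : P.map (fun ω i => X i ω) = mu n N := by
    rw [iIndepFun_iff_map_fun_eq_pi_map (fun i => (hX i).aemeasurable) |>.1 hind]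
    congr 1
    funext i
    exact (hX i).map_eq
  have haem : AEMeasurable (fun ω i => X i ω) P :=
    aemeasurable_pi_lambda _ fun i => (hX i).aemeasurable
  -- law of the first n vectors
  have hlaw2 : P.map (fun ω (i : Fin n) => X (Fin.castLE hnN i) ω) = mu n n := by
    have hind2 := hind.precomp (Fin.castLE_injective hnN)
    rw [iIndepFun_iff_map_fun_eq_pi_map (fun i => (hX _).aemeasurable) |>.1 hind2]
    congr 1
    funext i
    exact (hX _).map_eq
  have haem2 : AEMeasurable (fun ω (i : Fin n) => X (Fin.castLE hnN i) ω) P :=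
    aemeasurable_pi_lambda _ fun i => (hX _).aemeasurable
  have hli : ∀ᵐ ω ∂P, LinearIndependent ℝ (fun i : Fin n => X (Fin.castLE hnN i) ω) := by
    have := Indep.ae_linearIndependent (n := n) n le_rfl
    rw [← hlaw2] at this
    exact ae_of_ae_map haem2 this
  have hb : P {ω | ¬ ∀ a : Fin N → ℝ, G (fun i => X i ω) a = 0 →
      κ ^ 2 * (N * ∑ j, a j ^ 2) ≤ (l1 a) ^ 2} ≤ ENNReal.ofReal (2 * Real.exp (-n)) := by
    have h2 := hκ n N hn hnN hNK
    rw [Measure.real, ← hlaw] at h2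
    have h3 := Measure.le_map_apply haem {x : Fin N → EuclideanSpace ℝ (Fin n) |
      ¬ ∀ a : Fin N → ℝ, G x a = 0 → κ ^ 2 * (N * ∑ j, a j ^ 2) ≤ (l1 a) ^ 2}
    refine h3.trans ?_
    rw [ENNReal.le_ofReal_iff_toReal_le]
    · exact h2
    · rw [hlaw]; exact measure_ne_top _ _
    · positivity
  refine le_trans ?_ hb
  apply measure_mono_ae
  filter_upwards [hli] with ω hω
  intro hbad hker
  apply hbad
  intro q hq k y
  have hs := surj_of_linearIndependent hnN (fun i => X i ω) hω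
  have h2 := cotype_two (fun i => X i ω) (gauge (poly fun i => X i ω)) (fun z => gauge_nonneg z)
    (fun a => gauge_G_le hN _ a) (fun z δ hδ => exists_le_gauge hN _ hs z hδ) h0 h1 hker y
  exact cotype_q (fun i => gauge (poly fun i => X i ω) (y i)) (fun i => gauge_nonneg _)
    (fun s => gauge (poly fun i => X i ω) (∑ i, r (s i) • y i)) (fun s => gauge_nonneg _)
    (D_pos h0) h2 hq

end Pool.Agent.Helper24.Final
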