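import Mathlib

/-!
# Gaussian estimates
-/

set_option autoImplicit false

open MeasureTheory ProbabilityTheory Real WithLp

namespace Pool.Agent.Helper24.Gauss

lemma pdf_mul (t x : ℝ) : gaussianPDFReal 0 1 x * exp (t * x ^ 2) =
    (√(2 * π))⁻¹ * exp (-(1 / 2 - t) * x ^ 2) := by
  rw [gaussianPDFReal_def]
  simp only [NNReal.coe_one, mul_one, sub_zero]
  rw [mul_assoc, ← exp_add]
  congr 2
  ring

lemma integrable_exp_sq {t : ℝ} (ht : t < 1 / 2) :
    Integrable (fun x : ℝ => exp (t * x ^ 2)) (gaussianReal 0 1) := by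
  rw [gaussianReal_of_var_ne_zero 0 one_ne_zero]
  rw [integrable_withDensity_iff_integrable_smul' (measurable_gaussianPDF 0 1)
    (Filter.Eventually.of_forall fun x => gaussianPDF_lt_top)]
  simp_rw [toReal_gaussianPDF, smul_eq_mul, pdf_mul]
  apply Integrable.const_mul
  exact integrable_exp_neg_mul_sq (by linarith)

lemma integral_exp_sq {t : ℝ} (ht : t < 1 / 2) :
    ∫ x : ℝ, exp (t * x ^ 2) ∂(gaussianReal 0 1) = (√(1 - 2 * t))⁻¹ := by
  rw [integral_gaussianReal_eq_integral_smul one_ne_zero]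
  simp_rw [smul_eq_mul, pdf_mul]
  rw [integral_const_mul, integral_gaussian, ← Real.sqrt_inv, ← Real.sqrt_inv,
    ← Real.sqrt_mul (by positivity)]
  congr 1
  have h1 : (1 / 2 - t) ≠ 0 := by linarith
  have h2 : (1 - 2 * t) ≠ 0 := by intro h; apply h1; linarith
  have h3 : π ≠ 0 := pi_ne_zero
  field_simp

variable {n : ℕ}

lemma exp_norm_sq (t : ℝ) (z : Fin n → ℝ) :
    exp (t * ‖(toLp 2 z : EuclideanSpace ℝ (Fin n))‖ ^ 2) = ∏ i, exp (t * z i ^ 2) := by
  rw [EuclideanSpace.real_norm_sq_eq, ← exp_sum, Finset.mul_sum]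

lemma integrable_exp_norm_sq {t : ℝ} (ht : t < 1 / 2) :
    Integrable (fun z : EuclideanSpace ℝ (Fin n) => exp (t * ‖z‖ ^ 2))
      (stdGaussian (EuclideanSpace ℝ (Fin n))) := by
  rw [← map_pi_eq_stdGaussian, integrable_map_measure (by fun_prop) (by fun_prop)]
  have : (fun z : EuclideanSpace ℝ (Fin n) => exp (t * ‖z‖ ^ 2)) ∘ (toLp 2) =
      fun z : Fin n → ℝ => ∏ i, exp (t * z i ^ 2) := by
    funext z
    exact exp_norm_sq t z
  rw [this]
  exact Integrable.fintype_prod (fun _ => integrable_exp_sq ht)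

lemma integral_exp_norm_sq {t : ℝ} (ht : t < 1 / 2) :
    ∫ z, exp (t * ‖z‖ ^ 2) ∂(stdGaussian (EuclideanSpace ℝ (Fin n))) = ((√(1 - 2 * t))⁻¹) ^ n := by
  rw [← map_pi_eq_stdGaussian, integral_map (by fun_prop) (by fun_prop)]
  simp_rw [exp_norm_sq]
  rw [integral_fintype_prod_eq_prod (f := fun _ x => exp (t * x ^ 2))]
  simp_rw [integral_exp_sq ht]
  simp

/-- lower tail -/
lemma lower_tail : (stdGaussian (EuclideanSpace ℝ (Fin n))).real {z | ‖z‖ ^ 2 ≤ n / 500} ≤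
    exp (-2 * n) := by
  have h1 := mul_meas_ge_le_integral_of_nonneg (μ := stdGaussian (EuclideanSpace ℝ (Fin n)))
    (f := fun z => exp ((-500) * ‖z‖ ^ 2)) (Filter.Eventually.of_forall fun z => (exp_pos _).le)
    (integrable_exp_norm_sq (by norm_num)) (exp (-n))
  rw [integral_exp_norm_sq (by norm_num)] at h1
  have h2 : {z : EuclideanSpace ℝ (Fin n) | exp (-(n : ℝ)) ≤ exp ((-500) * ‖z‖ ^ 2)} =
      {z | ‖z‖ ^ 2 ≤ n / 500} := by
    ext z
    simp only [Set.mem_ofPred_eq, exp_le_exp]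
    constructor <;> intro h <;> linarith
  rw [h2] at h1
  have h3 : (√(1 - 2 * (-500)))⁻¹ ≤ exp (-3) := by
    rw [exp_neg]
    apply inv_anti₀ (exp_pos _)
    apply Real.le_sqrt_of_sq_le
    rw [← exp_nat_mul]
    have h4 : exp 1 ≤ 3 := by have := Real.exp_one_lt_d9; linarith
    have h5 : exp (((2 : ℕ) : ℝ) * 3) = (exp 1) ^ 6 := by
      rw [← exp_nat_mul]; norm_num
    rw [h5]
    calc (exp 1) ^ 6 ≤ 3 ^ 6 := pow_le_pow_left₀ (exp_pos _).le h4 6
      _ ≤ _ := by norm_num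
  have h6 : ((√(1 - 2 * (-500)))⁻¹) ^ n ≤ exp (-3 * n) := by
    calc ((√(1 - 2 * (-500)))⁻¹) ^ n ≤ (exp (-3)) ^ n := pow_le_pow_left₀ (by positivity) h3 n
      _ = exp (-3 * n) := by rw [← exp_nat_mul]; congr 1; ring
  have h7 : exp (-n) * (stdGaussian (EuclideanSpace ℝ (Fin n))).real {z | ‖z‖ ^ 2 ≤ n / 500} ≤
      exp (-n) * exp (-2 * n) := by
    rw [← exp_add]
    refine h1.trans (h6.trans (le_of_eq ?_))
    congr 1
    ring
  exact le_of_mul_le_mul_left h7 (exp_pos _)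

/-- upper tail -/
lemma upper_tail {N : ℕ} (hN : n ≤ N) :
    (stdGaussian (EuclideanSpace ℝ (Fin n))).real {z | 16 * N ≤ ‖z‖ ^ 2} ≤ exp (-3 * N) := by
  have h1 := mul_meas_ge_le_integral_of_nonneg (μ := stdGaussian (EuclideanSpace ℝ (Fin n)))
    (f := fun z => exp ((1 / 4) * ‖z‖ ^ 2)) (Filter.Eventually.of_forall fun z => (exp_pos _).le)
    (integrable_exp_norm_sq (by norm_num)) (exp (4 * N))
  rw [integral_exp_norm_sq (by norm_num)] at h1
  have h2 : {z : EuclideanSpace ℝ (Fin n) | exp (4 * (N : ℝ)) ≤ exp ((1 / 4) * ‖z‖ ^ 2)} =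
      {z | 16 * N ≤ ‖z‖ ^ 2} := by
    ext z
    simp only [Set.mem_ofPred_eq, exp_le_exp]
    constructor <;> intro h <;> linarith
  rw [h2] at h1
  have h3 : (√(1 - 2 * (1 / 4)))⁻¹ ≤ exp 1 := by
    have h4 : (2 : ℝ) ≤ exp 1 := by have := Real.exp_one_gt_d9; linarith
    refine le_trans ?_ h4
    rw [show (2 : ℝ) = ((1 / 2 : ℝ))⁻¹ by norm_num]
    apply inv_anti₀ (by norm_num)
    apply Real.le_sqrt_of_sq_le
    norm_num
  have h6 : ((√(1 - 2 * (1 / 4)))⁻¹) ^ n ≤ exp N := by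
    calc ((√(1 - 2 * (1 / 4)))⁻¹) ^ n ≤ (exp 1) ^ n := pow_le_pow_left₀ (by positivity) h3 n
      _ = exp n := by rw [← exp_nat_mul]; congr 1; ring
      _ ≤ exp N := exp_le_exp.2 (by exact_mod_cast hN)
  have h7 : exp (4 * N) * (stdGaussian (EuclideanSpace ℝ (Fin n))).real {z | 16 * N ≤ ‖z‖ ^ 2} ≤
      exp (4 * N) * exp (-3 * N) := by
    rw [← exp_add]
    refine h1.trans (h6.trans (le_of_eq ?_))
    congr 1
    ring
  exact le_of_mul_le_mul_left h7 (exp_pos _)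

/-- the law of a normalized combination -/
lemma law_sum {N : ℕ} (u : Fin N → ℝ) (hu : ∑ i, u i ^ 2 = 1) :
    (Measure.pi (fun _ : Fin N => stdGaussian (EuclideanSpace ℝ (Fin n)))).map
      (fun x => ∑ i, u i • x i) = stdGaussian (EuclideanSpace ℝ (Fin n)) := by
  apply Measure.ext_of_charFun (E := EuclideanSpace ℝ (Fin n))
  ext t
  have hc : Continuous (fun x : Fin N → EuclideanSpace ℝ (Fin n) => ∑ i, u i • x i) := by
    fun_prop
  rw [charFun_stdGaussian, charFun_apply, integral_map hc.measurable.aemeasurable (by fun_prop)]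
  have h1 : ∀ x : Fin N → EuclideanSpace ℝ (Fin n),
      Complex.exp ((inner ℝ (∑ i, u i • x i) t : ℝ) * Complex.I) =
      ∏ i, Complex.exp ((inner ℝ (x i) (u i • t) : ℝ) * Complex.I) := by
    intro x
    rw [sum_inner, Complex.ofReal_sum, Finset.sum_mul, Complex.exp_sum]
    apply Finset.prod_congr rfl
    intro i _
    rw [real_inner_smul_left, real_inner_smul_right]
  simp_rw [h1]
  rw [integral_fintype_prod_eq_prod (f := fun i (z : EuclideanSpace ℝ (Fin n)) =>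
    Complex.exp ((inner ℝ z (u i • t) : ℝ) * Complex.I))]
  simp_rw [← charFun_apply, charFun_stdGaussian]
  rw [← Complex.exp_sum]
  congr 1
  have h2 : ∀ i, -((‖u i • t‖ : ℝ) : ℂ) ^ 2 / 2 = ((u i ^ 2 * (-‖t‖ ^ 2 / 2) : ℝ) : ℂ) := by
    intro i
    rw [← Complex.ofReal_pow, norm_smul, mul_pow, Real.norm_eq_abs, sq_abs]
    push_cast
    ring
  simp_rw [h2]
  rw [← Complex.ofReal_sum, ← Finset.sum_mul, hu]
  push_cast
  ring

end Pool.Agent.Helper24.Gauss
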