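import Pool.Agent.Helper24.Cotype.Prob

/-!
# Almost sure linear independence of Gaussian vectors
-/

set_option autoImplicit false

open Finset WithLp MeasureTheory ProbabilityTheory
open Pool.Agent.Helper24.Prob (mu)

namespace Pool.Agent.Helper24.Indep

variable {n : ℕ}

lemma submodule_null (W : Submodule ℝ (EuclideanSpace ℝ (Fin n))) (hW : W ≠ ⊤) :
    stdGaussian (EuclideanSpace ℝ (Fin n)) (W : Set (EuclideanSpace ℝ (Fin n))) = 0 := by
  have h1 : Wᗮ ≠ ⊥ := fun h => hW (Submodule.orthogonal_eq_bot_iff.1 h)
  obtain ⟨v, hv, hv0⟩ := Submodule.exists_mem_ne_zero_of_ne_bot h1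
  let L : StrongDual ℝ (EuclideanSpace ℝ (Fin n)) := innerSL ℝ v
  have hL : ‖L‖ ≠ 0 := by
    rw [innerSL_apply_norm]
    exact norm_ne_zero_iff.2 hv0
  have h2 : (W : Set (EuclideanSpace ℝ (Fin n))) ⊆ L ⁻¹' {0} := by
    intro z hz
    simp only [Set.mem_preimage, Set.mem_singleton_iff]
    exact (Submodule.mem_orthogonal' W v).1 hv z hz
  refine measure_mono_null h2 ?_
  rw [← Measure.map_apply L.continuous.measurable (measurableSet_singleton 0),
    IsGaussian.map_eq_gaussianReal L, variance_dual_stdGaussian]
  have : (‖L‖ ^ 2).toNNReal ≠ 0 := by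
    rw [Ne, Real.toNNReal_eq_zero, not_le]
    positivity
  have := nullSingletonClass_gaussianReal (μ := (stdGaussian (EuclideanSpace ℝ (Fin n)))[L]) this
  exact measure_singleton _

theorem ae_linearIndependent : ∀ k : ℕ, k ≤ n → ∀ᵐ x ∂(mu n k), LinearIndependent ℝ x := by
  intro k
  induction k with
  | zero =>
    intro _
    exact Filter.Eventually.of_forall fun x => linearIndependent_empty_type
  | succ k ih =>
    intro hk
    have ih' := ih (by omega)
    have hmp := measurePreserving_piFinSuccAbove
      (fun _ : Fin (k + 1) => stdGaussian (EuclideanSpace ℝ (Fin n))) 0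
    have hprod : ∀ᵐ q ∂((stdGaussian (EuclideanSpace ℝ (Fin n))).prod (mu n k)),
        LinearIndependent ℝ (Fin.cons q.1 q.2 : Fin (k + 1) → EuclideanSpace ℝ (Fin n)) := by
      have hmeas : MeasurableSet {q : EuclideanSpace ℝ (Fin n) × (Fin k → EuclideanSpace ℝ (Fin n)) |
          LinearIndependent ℝ (Fin.cons q.1 q.2 : Fin (k + 1) → EuclideanSpace ℝ (Fin n))} := by
        apply IsOpen.measurableSet
        have hc : Continuous (fun q : EuclideanSpace ℝ (Fin n) ×
            (Fin k → EuclideanSpace ℝ (Fin n)) =>
            (Fin.cons q.1 q.2 : Fin (k + 1) → EuclideanSpace ℝ (Fin n))) := by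
          apply continuous_pi
          intro i
          refine Fin.cases ?_ (fun j => ?_) i
          · simpa using continuous_fst
          · simp only [Fin.cons_succ]
            fun_prop
        exact (isOpen_setOfPred_linearIndependent (𝕜 := ℝ)).preimage hc
      rw [Measure.ae_prod_iff_ae_ae hmeas]
      rw [Measure.ae_ae_comm (p := fun z y => LinearIndependent ℝ
        (Fin.cons z y : Fin (k + 1) → EuclideanSpace ℝ (Fin n))) hmeas]
      filter_upwards [ih'] with y hy
      have hne : Submodule.span ℝ (Set.range y) ≠ ⊤ := by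
        intro h
        have h1 := finrank_range_le_card (R := ℝ) y
        rw [Set.finrank, h, finrank_top, finrank_euclideanSpace_fin, Fintype.card_fin] at h1
        omega
      have h0 := submodule_null _ hne
      rw [← compl_mem_ae_iff] at h0
      filter_upwards [h0] with z hz
      exact LinearIndependent.finCons hy hz
    have h2 := hmp.quasiMeasurePreserving.ae hprod
    filter_upwards [h2] with x hx
    have e1 : (Fin.cons (x 0) (fun j : Fin k => x j.succ) :
        Fin (k + 1) → EuclideanSpace ℝ (Fin n)) = x := by
      funext i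
      refine Fin.cases ?_ (fun j => ?_) i <;> simp
    rw [← e1]
    exact hx

end Pool.Agent.Helper24.Indep
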