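import Mathlib

/-!
# Nets on unit spheres of finite dimensional spaces
-/

set_option autoImplicit false

open MeasureTheory Metric Set Module ENNReal

namespace Pool.Agent.Helper24.Net

variable {E : Type*} [NormedAddCommGroup E] [NormedSpace ℝ E] [FiniteDimensional ℝ E]

open scoped Function in
theorem card_le (s : Finset E) {ε : ℝ} (hε : 0 < ε) (hs : ∀ c ∈ s, ‖c‖ ≤ 1)
    (h : ∀ c ∈ s, ∀ d ∈ s, c ≠ d → ε ≤ ‖c - d‖) :
    (s.card : ℝ) ≤ (1 + 2 / ε) ^ finrank ℝ E := by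
  borelize E
  let μ : Measure E := Measure.addHaar
  let δ : ℝ := ε / 2
  let ρ : ℝ := 1 + ε / 2
  have δpos : 0 < δ := by positivity
  have ρpos : 0 < ρ := by positivity
  set A := ⋃ c ∈ s, ball (c : E) δ with hA
  have D : Set.Pairwise (s : Set E) (Disjoint on fun c => ball (c : E) δ) := by
    rintro c hc d hd hcd
    apply ball_disjoint_ball
    rw [dist_eq_norm]
    have := h c hc d hd hcd
    show ε / 2 + ε / 2 ≤ ‖c - d‖
    linarith
  have A_subset : A ⊆ ball (0 : E) ρ := by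
    refine iUnion₂_subset fun x hx => ?_
    apply ball_subset_ball'
    have := hs x hx
    rw [dist_zero_right]
    show ε / 2 + ‖x‖ ≤ 1 + ε / 2
    linarith
  have I :
    (s.card : ℝ≥0∞) * ENNReal.ofReal (δ ^ finrank ℝ E) * μ (ball 0 1) ≤
      ENNReal.ofReal (ρ ^ finrank ℝ E) * μ (ball 0 1) :=
    calc
      (s.card : ℝ≥0∞) * ENNReal.ofReal (δ ^ finrank ℝ E) * μ (ball 0 1) = μ A := by
        rw [hA, measure_biUnion_finset D fun c _ => measurableSet_ball]
        simp only [μ.addHaar_ball_of_pos _ δpos]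
        simp only [Finset.sum_const, nsmul_eq_mul, mul_assoc]
      _ ≤ μ (ball (0 : E) ρ) := measure_mono A_subset
      _ = ENNReal.ofReal (ρ ^ finrank ℝ E) * μ (ball 0 1) := by
        simp only [μ.addHaar_ball_of_pos _ ρpos]
  have J : (s.card : ℝ≥0∞) * ENNReal.ofReal (δ ^ finrank ℝ E) ≤ ENNReal.ofReal (ρ ^ finrank ℝ E) :=
    (ENNReal.mul_le_mul_iff_left (measure_ball_pos _ _ zero_lt_one).ne' measure_ball_lt_top.ne).1 I
  have K : (s.card : ℝ) * δ ^ finrank ℝ E ≤ ρ ^ finrank ℝ E := by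
    have := ENNReal.toReal_le_of_le_ofReal (pow_nonneg ρpos.le _) J
    rwa [ENNReal.toReal_mul, ENNReal.toReal_natCast,
      ENNReal.toReal_ofReal (pow_nonneg δpos.le _)] at this
  have e : (1 + 2 / ε) ^ finrank ℝ E = ρ ^ finrank ℝ E / δ ^ finrank ℝ E := by
    rw [← div_pow]
    congr 1
    show 1 + 2 / ε = (1 + ε / 2) / (ε / 2)
    field_simp
    ring
  rw [e, le_div_iff₀ (pow_pos δpos _)]
  exact K

theorem exists_net (E : Type*) [NormedAddCommGroup E] [NormedSpace ℝ E] [FiniteDimensional ℝ E]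
    {ε : ℝ} (hε : 0 < ε) :
    ∃ S : Finset E, (∀ v ∈ S, ‖v‖ = 1) ∧ (S.card : ℝ) ≤ (1 + 2 / ε) ^ finrank ℝ E ∧
      ∀ v : E, ‖v‖ = 1 → ∃ w ∈ S, ‖v - w‖ < ε := by
  classical
  let P : ℕ → Prop := fun m => ∃ s : Finset E, s.card = m ∧ (∀ c ∈ s, ‖c‖ = 1) ∧
    ∀ c ∈ s, ∀ d ∈ s, c ≠ d → ε ≤ ‖c - d‖
  obtain ⟨M, hM⟩ := exists_nat_ge ((1 + 2 / ε) ^ finrank ℝ E)
  have hP : ∀ m, P m → m ≤ M := by
    rintro m ⟨s, rfl, hs, h⟩
    have := card_le s hε (fun c hc => (hs c hc).le) h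
    exact_mod_cast this.trans hM
  have h0 : P 0 := ⟨∅, by simp⟩
  obtain ⟨s, hs, hs1, hs2⟩ := Nat.findGreatest_spec (P := P) (Nat.zero_le M) h0
  refine ⟨s, hs1, card_le s hε (fun c hc => (hs1 c hc).le) hs2, ?_⟩
  intro v hv
  by_contra hcon
  push Not at hcon
  have hvs : v ∉ s := by
    intro hvs
    have := hcon v hvs
    rw [sub_self, norm_zero] at this
    linarith
  have h1 : P (s.card + 1) := by
    refine ⟨insert v s, by rw [Finset.card_insert_of_notMem hvs], ?_, ?_⟩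
    · intro c hc
      rcases Finset.mem_insert.1 hc with rfl | hc
      · exact hv
      · exact hs1 c hc
    · intro c hc d hd hcd
      rcases Finset.mem_insert.1 hc with hc' | hc' <;>
        rcases Finset.mem_insert.1 hd with hd' | hd'
      · exact absurd (hc'.trans hd'.symm) hcd
      · rw [hc']; exact hcon d hd'
      · rw [norm_sub_rev, hd']; exact hcon c hc'
      · exact hs2 c hc' d hd' hcd
  have h2 := Nat.le_findGreatest (hP _ h1) h1
  rw [hs] at h2
  omega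

end Pool.Agent.Helper24.Net
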