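import Pool.Agent.Helper24.Cotype.Det
import Pool.Agent.Helper24.Cotype.Net

/-!
# From net estimates to the comparison of `ℓ₁` and `ℓ₂` on the kernel
-/

set_option autoImplicit false

open Finset WithLp
open Pool.Agent.Helper24.Det (G l1 l1_nonneg)

namespace Pool.Agent.Helper24.Kernel

variable {n N : ℕ}

/-- the `ℓ₂` norm -/
noncomputable def l2 (a : Fin N → ℝ) : ℝ := √(∑ j, a j ^ 2)

lemma l2_nonneg (a : Fin N → ℝ) : 0 ≤ l2 a := Real.sqrt_nonneg _

lemma l2_sq (a : Fin N → ℝ) : l2 a ^ 2 = ∑ j, a j ^ 2 :=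
  Real.sq_sqrt (sum_nonneg fun _ _ => sq_nonneg _)

lemma l2_eq_norm (a : Fin N → ℝ) : l2 a = ‖(toLp 2 a : EuclideanSpace ℝ (Fin N))‖ := by
  rw [EuclideanSpace.norm_eq]
  simp [l2, sq_abs]

/-- the linear map as a continuous linear map on Euclidean space -/
noncomputable def Gl (x : Fin N → EuclideanSpace ℝ (Fin n)) :
    EuclideanSpace ℝ (Fin N) →L[ℝ] EuclideanSpace ℝ (Fin n) :=
  LinearMap.toContinuousLinearMap
    { toFun := fun u => G x (ofLp u)
      map_add' := by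
        intro u v
        simp [G, add_smul, sum_add_distrib]
      map_smul' := by
        intro c u
        simp [G, smul_sum, smul_smul] }

lemma Gl_apply (x : Fin N → EuclideanSpace ℝ (Fin n)) (u : EuclideanSpace ℝ (Fin N)) :
    Gl x u = G x (ofLp u) := rfl

/-- operator norm bound from a net -/
lemma op_bound (x : Fin N → EuclideanSpace ℝ (Fin n)) {M : ℝ} (hM : 0 ≤ M)
    (S : Finset (EuclideanSpace ℝ (Fin N)))
    (hS : ∀ v : EuclideanSpace ℝ (Fin N), ‖v‖ = 1 → ∃ w ∈ S, ‖v - w‖ < 1 / 2)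
    (hx : ∀ w ∈ S, ‖G x (ofLp w)‖ ≤ M) (a : Fin N → ℝ) : ‖G x a‖ ≤ 2 * M * l2 a := by
  have h1 : ‖Gl x‖ ≤ M + ‖Gl x‖ / 2 := by
    apply ContinuousLinearMap.opNorm_le_of_unit_norm (by positivity)
    intro v hv
    obtain ⟨w, hw, hvw⟩ := hS v hv
    have e1 : Gl x v = Gl x w + Gl x (v - w) := by rw [← map_add]; congr 1; abel
    have e2 : ‖Gl x (v - w)‖ ≤ ‖Gl x‖ * (1 / 2) :=
      ((Gl x).le_opNorm _).trans (mul_le_mul_of_nonneg_left hvw.le (norm_nonneg _))
    have e3 : ‖Gl x w‖ ≤ M := hx w hw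
    calc ‖Gl x v‖ ≤ ‖Gl x w‖ + ‖Gl x (v - w)‖ := by rw [e1]; exact norm_add_le _ _
      _ ≤ M + ‖Gl x‖ / 2 := by linarith
  have h2 : ‖Gl x‖ ≤ 2 * M := by linarith
  have h3 := (Gl x).le_of_opNorm_le h2 (toLp 2 a)
  rw [l2_eq_norm]
  exact h3

/-- the extension by zero of a vector indexed by `J` -/
def emb (J : Finset (Fin N)) (v : EuclideanSpace ℝ J) : Fin N → ℝ :=
  fun i => if h : i ∈ J then v ⟨i, h⟩ else 0

lemma emb_sub (J : Finset (Fin N)) (v w : EuclideanSpace ℝ J) :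
    (fun i => emb J v i - emb J w i) = emb J (v - w) := by
  funext i
  unfold emb
  split_ifs <;> simp

lemma emb_smul (J : Finset (Fin N)) (c : ℝ) (v : EuclideanSpace ℝ J) :
    emb J (c • v) = fun i => c * emb J v i := by
  funext i
  unfold emb
  split_ifs <;> simp

lemma sum_emb_sq (J : Finset (Fin N)) (v : EuclideanSpace ℝ J) :
    ∑ i, emb J v i ^ 2 = ‖v‖ ^ 2 := by
  rw [EuclideanSpace.real_norm_sq_eq]
  have h1 : ∑ i, emb J v i ^ 2 = ∑ i ∈ J, emb J v i ^ 2 := by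
    symm
    apply sum_subset (subset_univ J)
    intro i _ hi
    simp [emb, hi]
  rw [h1, ← sum_coe_sort J (fun i => emb J v i ^ 2)]
  apply sum_congr rfl
  intro i _
  simp [emb]

lemma l2_emb (J : Finset (Fin N)) (v : EuclideanSpace ℝ J) : l2 (emb J v) = ‖v‖ := by
  unfold l2
  rw [sum_emb_sq, Real.sqrt_sq (norm_nonneg _)]

lemma G_smul' (x : Fin N → EuclideanSpace ℝ (Fin n)) (c : ℝ) (a : Fin N → ℝ) :
    G x (fun i => c * a i) = c • G x a := by
  simp [G, smul_sum, smul_smul]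

/-- lower bound for vectors supported on `J` -/
lemma sparse_bound (x : Fin N → EuclideanSpace ℝ (Fin n)) {α β ε : ℝ} 
    (hop : ∀ a, ‖G x a‖ ≤ β * l2 a) (hβ0 : 0 ≤ β) (hβ : β * ε ≤ α / 2) (J : Finset (Fin N))
    (S : Finset (EuclideanSpace ℝ J))
    (hS : ∀ v : EuclideanSpace ℝ J, ‖v‖ = 1 → ∃ w ∈ S, ‖v - w‖ < ε)
    (hx : ∀ w ∈ S, α ≤ ‖G x (emb J w)‖) (u : Fin N → ℝ) (hu : ∀ i, i ∉ J → u i = 0) :
    α / 2 * l2 u ≤ ‖G x u‖ := by
  let v : EuclideanSpace ℝ J := toLp 2 (fun i => u i)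
  have huv : u = emb J v := by
    funext i
    unfold emb
    split_ifs with h
    · rfl
    · exact hu i h
  rw [huv, l2_emb]
  by_cases hv : v = 0
  · rw [hv]; simp
  · have hv' : 0 < ‖v‖ := norm_pos_iff.2 hv
    have h1 : ‖(‖v‖⁻¹ • v)‖ = 1 := by
      rw [norm_smul, norm_inv, norm_norm, inv_mul_cancel₀ hv'.ne']
    obtain ⟨w, hw, hvw⟩ := hS _ h1
    have h2 : G x (emb J (‖v‖⁻¹ • v)) = G x (emb J w) + G x (emb J (‖v‖⁻¹ • v - w)) := by
      rw [← emb_sub, Pool.Agent.Helper24.Det.G_sub]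
      abel
    have h3 : ‖G x (emb J (‖v‖⁻¹ • v - w))‖ ≤ β * ε := by
      refine (hop _).trans ?_
      rw [l2_emb]
      exact mul_le_mul_of_nonneg_left hvw.le hβ0
    have h4 : α / 2 ≤ ‖G x (emb J (‖v‖⁻¹ • v))‖ := by
      have h5 : ‖G x (emb J w)‖ ≤ ‖G x (emb J (‖v‖⁻¹ • v))‖ + ‖G x (emb J (‖v‖⁻¹ • v - w))‖ := by
        have : G x (emb J w) = G x (emb J (‖v‖⁻¹ • v)) - G x (emb J (‖v‖⁻¹ • v - w)) := by
          rw [h2]; abel
        rw [this]
        exact norm_sub_le _ _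
      have := hx w hw
      linarith
    rw [emb_smul, G_smul', norm_smul, norm_inv, norm_norm] at h4
    rw [inv_mul_eq_div, le_div_iff₀ hv'] at h4
    exact h4

/-- the comparison of norms on the kernel -/
lemma kernel_bound (hN : 0 < N) (x : Fin N → EuclideanSpace ℝ (Fin n)) {α β δ : ℝ}
    (hα : 0 ≤ α) (hδ0 : 0 < δ) (hδ1 : δ ≤ 1 / 4) (hβ0 : 0 ≤ β) (hβ : β * √δ < α / 4)
    (hop : ∀ a, ‖G x a‖ ≤ β * l2 a)
    (hsp : ∀ J : Finset (Fin N), (J.card : ℝ) ≤ δ * N → ∀ u : Fin N → ℝ,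
      (∀ i, i ∉ J → u i = 0) → α / 2 * l2 u ≤ ‖G x u‖)
    (a : Fin N → ℝ) (ha : G x a = 0) : δ ^ 2 * (N * ∑ j, a j ^ 2) ≤ (l1 a) ^ 2 := by
  by_contra hcon
  push Not at hcon
  rw [← l2_sq] at hcon
  set A := l2 a with hA
  have hA0 : 0 ≤ A := l2_nonneg a
  have hNr : (0 : ℝ) < N := by exact_mod_cast hN
  have hsN : 0 < √(N : ℝ) := Real.sqrt_pos.2 hNr
  have hsN2 : √(N : ℝ) ^ 2 = N := Real.sq_sqrt hNr.le
  have hApos : 0 < A := by
    rcases hA0.eq_or_lt with h | h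
    · rw [← h] at hcon
      simp only [ne_eq, OfNat.ofNat_ne_zero, not_false_eq_true, zero_pow, mul_zero] at hcon
      exact absurd (sq_nonneg (l1 a)) (not_le.2 hcon)
    · exact h
  have h1 : l1 a < δ * √N * A := by
    have : (l1 a) ^ 2 < (δ * √N * A) ^ 2 := by
      rw [mul_pow, mul_pow, hsN2]
      linarith
    exact lt_of_pow_lt_pow_left₀ 2 (by positivity) this
  classical
  let J : Finset (Fin N) := univ.filter (fun j => A ≤ |a j| * √N)
  have hJ : (J.card : ℝ) ≤ δ * N := by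
    have e1 : (J.card : ℝ) * A ≤ l1 a * √N := by
      calc (J.card : ℝ) * A = ∑ j ∈ J, A := by rw [sum_const, nsmul_eq_mul]
        _ ≤ ∑ j ∈ J, |a j| * √N := sum_le_sum fun j hj => (mem_filter.1 hj).2
        _ ≤ ∑ j, |a j| * √N := sum_le_sum_of_subset_of_nonneg (subset_univ _)
            (fun j _ _ => by positivity)
        _ = l1 a * √N := by rw [← sum_mul]; rfl
    have e2 : l1 a * √N ≤ δ * N * A := by
      calc l1 a * √N ≤ (δ * √N * A) * √N := mul_le_mul_of_nonneg_right h1.le hsN.le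
        _ = δ * (√N ^ 2) * A := by ring
        _ = δ * N * A := by rw [hsN2]
    exact le_of_mul_le_mul_right (e1.trans e2) hApos
  let u : Fin N → ℝ := fun j => if j ∈ J then a j else 0
  let v : Fin N → ℝ := fun j => if j ∈ J then 0 else - a j
  have huv : G x u = G x v := by
    have : G x u - G x v = G x a := by
      rw [← Pool.Agent.Helper24.Det.G_sub]
      congr 1
      funext j
      simp only [u, v]
      split_ifs <;> simp
    rw [ha] at this
    exact sub_eq_zero.1 this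
  have hsum : l2 u ^ 2 + l2 v ^ 2 = A ^ 2 := by
    rw [hA, l2_sq, l2_sq, l2_sq, ← sum_add_distrib]
    apply sum_congr rfl
    intro j _
    simp only [u, v]
    split_ifs <;> simp
  have hv : l2 v ^ 2 ≤ δ * A ^ 2 := by
    have e1 : l2 v ^ 2 * √N ≤ A * l1 a := by
      rw [l2_sq, sum_mul, l1, mul_sum]
      apply sum_le_sum
      intro j _
      simp only [v]
      split_ifs with hj
      · simp only [ne_eq, OfNat.ofNat_ne_zero, not_false_eq_true, zero_pow, zero_mul]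
        positivity
      · have hj' : |a j| * √N < A := by
          by_contra hc
          push Not at hc
          exact hj (mem_filter.2 ⟨mem_univ _, hc⟩)
        have : (-a j) ^ 2 = |a j| * |a j| := by rw [neg_sq, ← sq_abs]; ring
        rw [this]
        nlinarith [abs_nonneg (a j)]
    have e2 : l2 v ^ 2 * √N ≤ (δ * A ^ 2) * √N := by
      refine e1.trans ?_
      calc A * l1 a ≤ A * (δ * √N * A) := mul_le_mul_of_nonneg_left h1.le hA0
        _ = (δ * A ^ 2) * √N := by ring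
    exact le_of_mul_le_mul_right e2 hsN
  have hv2 : l2 v ≤ √δ * A := by
    have : l2 v ^ 2 ≤ (√δ * A) ^ 2 := by
      rw [mul_pow, Real.sq_sqrt hδ0.le]; exact hv
    exact le_of_pow_le_pow_left₀ two_ne_zero (by positivity) this
  have hu2 : A / 2 ≤ l2 u := by
    have : (A / 2) ^ 2 ≤ l2 u ^ 2 := by nlinarith [sq_nonneg A]
    exact le_of_pow_le_pow_left₀ two_ne_zero (l2_nonneg u) this
  have h5 := hsp J hJ u (fun i hi => by simp [u, hi])
  have h6 := hop v
  rw [← huv] at h6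
  have h7 : β * l2 v ≤ β * (√δ * A) := mul_le_mul_of_nonneg_left hv2 hβ0
  have h8 : α / 2 * (A / 2) ≤ α / 2 * l2 u := mul_le_mul_of_nonneg_left hu2 (by positivity)
  have h9 : (β * √δ) * A < α / 4 * A := mul_lt_mul_of_pos_right hβ hApos
  nlinarith

end Pool.Agent.Helper24.Kernel
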