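import Pool.Agent.Helper24.Cotype.Kernel
import Pool.Agent.Helper24.Cotype.Gauss

/-!
# The kernel of a Gaussian matrix, with high probability
-/

set_option autoImplicit false

open Finset WithLp MeasureTheory ProbabilityTheory
open Pool.Agent.Helper24.Det (G l1 l1_nonneg)
open Pool.Agent.Helper24.Kernel

namespace Pool.Agent.Helper24.Prob

/-- number of small subsets -/
lemma card_small (N : ℕ) {δ : ℝ} (h0 : 0 < δ) (h1 : δ ≤ 1) :
    (((univ : Finset (Finset (Fin N))).filter (fun J => (J.card : ℝ) ≤ δ * N)).card : ℝ) ≤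
      Real.exp (δ * N * (1 - Real.log δ)) := by
  have e1 : ∑ J ∈ (univ : Finset (Finset (Fin N))).filter (fun J => (J.card : ℝ) ≤ δ * N),
      δ ^ J.card ≤ (δ + 1) ^ N := by
    have h2 := Finset.sum_pow_mul_eq_add_pow δ 1 (univ : Finset (Fin N))
    simp only [powerset_univ, one_pow, mul_one, card_univ, Fintype.card_fin] at h2
    rw [← h2]
    exact sum_le_sum_of_subset_of_nonneg (filter_subset _ _) (fun _ _ _ => by positivity)
  have e2 : ∀ J ∈ (univ : Finset (Finset (Fin N))).filter (fun J => (J.card : ℝ) ≤ δ * N),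
      Real.exp (δ * N * Real.log δ) ≤ δ ^ J.card := by
    intro J hJ
    have hJ' := (mem_filter.1 hJ).2
    have : δ ^ J.card = Real.exp (J.card * Real.log δ) := by
      rw [Real.exp_nat_mul, Real.exp_log h0]
    rw [this]
    apply Real.exp_le_exp.2
    exact mul_le_mul_of_nonpos_right hJ' (Real.log_nonpos h0.le h1)
  have e3 := (sum_le_sum e2).trans e1
  rw [sum_const, nsmul_eq_mul] at e3
  have e4 : (δ + 1) ^ N ≤ Real.exp (δ * N) := by
    calc (δ + 1) ^ N ≤ (Real.exp δ) ^ N :=
          pow_le_pow_left₀ (by positivity) (Real.add_one_le_exp δ) N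
      _ = Real.exp (δ * N) := by rw [← Real.exp_nat_mul]; congr 1; ring
  have e5 := e3.trans e4
  rw [← le_div_iff₀ (Real.exp_pos _), ← Real.exp_sub] at e5
  refine e5.trans (le_of_eq ?_)
  congr 1
  ring

variable {n N : ℕ}

/-- the Gaussian measure on `N`-tuples of vectors -/
noncomputable abbrev mu (n N : ℕ) : Measure (Fin N → EuclideanSpace ℝ (Fin n)) :=
  Measure.pi (fun _ : Fin N => stdGaussian (EuclideanSpace ℝ (Fin n)))

lemma G_cont (u : Fin N → ℝ) :
    Continuous (fun x : Fin N → EuclideanSpace ℝ (Fin n) => G x u) := by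
  unfold G
  fun_prop

lemma upper_event (hN : n ≤ N) (u : Fin N → ℝ) (hu : ∑ i, u i ^ 2 = 1) :
    (mu n N).real {x | 16 * N ≤ ‖G x u‖ ^ 2} ≤ Real.exp (-3 * N) := by
  have h := Gauss.upper_tail (n := n) hN
  rw [← Gauss.law_sum (n := n) u hu, map_measureReal_apply] at h
  · exact h
  · exact (G_cont u).measurable
  · apply measurableSet_le <;> fun_prop

lemma lower_event (u : Fin N → ℝ) (hu : ∑ i, u i ^ 2 = 1) :
    (mu n N).real {x | ‖G x u‖ ^ 2 ≤ n / 500} ≤ Real.exp (-2 * n) := by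
  have h := Gauss.lower_tail (n := n)
  rw [← Gauss.law_sum (n := n) u hu, map_measureReal_apply] at h
  · exact h
  · exact (G_cont u).measurable
  · apply measurableSet_le <;> fun_prop

/-- the choice of the sparsity parameter -/
lemma exists_delta {K' L : ℝ} (hK : 0 < K') :
    ∃ δ : ℝ, 0 < δ ∧ δ ≤ 1 / 4 ∧ δ < 1 / (1024 * 500 * K') ∧
      δ * K' * (1 - Real.log δ + L) ≤ 1 := by
  have h1 : Filter.Tendsto (fun δ : ℝ => δ * K' * (1 - Real.log δ + L)) (nhdsWithin 0 (Set.Ioi 0))
      (nhds 0) := by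
    have e1 := tendsto_log_mul_rpow_nhdsGT_zero zero_lt_one
    simp only [Real.rpow_one] at e1
    have e2 : Filter.Tendsto (fun δ : ℝ => δ) (nhdsWithin 0 (Set.Ioi 0)) (nhds 0) :=
      Filter.tendsto_id.mono_left nhdsWithin_le_nhds
    have e3 := ((e2.const_mul (K' * (1 + L))).sub (e1.const_mul K'))
    simp only [mul_zero, sub_zero] at e3
    refine e3.congr fun δ => ?_
    ring
  have h2 : ∀ᶠ δ in nhdsWithin (0 : ℝ) (Set.Ioi 0), δ * K' * (1 - Real.log δ + L) < 1 :=
    h1.eventually_lt_const one_pos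
  have h3 : ∀ c : ℝ, 0 < c → ∀ᶠ δ in nhdsWithin (0 : ℝ) (Set.Ioi 0), δ < c := by
    intro c hc
    exact nhdsWithin_le_nhds (Iio_mem_nhds hc)
  have h4 : ∀ᶠ δ in nhdsWithin (0 : ℝ) (Set.Ioi 0), 0 < δ := eventually_mem_nhdsWithin
  obtain ⟨δ, ⟨⟨ha, hb⟩, hc⟩, hd⟩ := (((h2.and (h3 (1 / 4) (by norm_num))).and
    (h3 (1 / (1024 * 500 * K')) (by positivity))).and h4).exists
  exact ⟨δ, hd, hb.le, hc, ha.le⟩

/-- With high probability the kernel of a Gaussian matrix is well spread. -/
theorem good_prob {K' : ℝ} (hK : 1 ≤ K') : ∃ κ : ℝ, 0 < κ ∧ κ ≤ 1 ∧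
    ∀ n N : ℕ, 0 < n → n ≤ N → (N : ℝ) ≤ K' * n →
      (mu n N).real {x | ¬ ∀ a : Fin N → ℝ, G x a = 0 → κ ^ 2 * (N * ∑ j, a j ^ 2) ≤ (l1 a) ^ 2} ≤
        2 * Real.exp (-n) := by
  have hK0 : 0 < K' := by linarith
  set ε : ℝ := 1 / (16 * √(500 * K')) with hε
  have hε0 : 0 < ε := by positivity
  obtain ⟨δ, hδ0, hδ4, hδs, hδK⟩ := exists_delta (K' := K') (L := Real.log (1 + 2 / ε)) hK0
  refine ⟨δ, hδ0, by linarith, ?_⟩
  intro n N hn hnN hNK
  have hnr : (0 : ℝ) < n := by exact_mod_cast hn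
  have hN : 0 < N := by omega
  have hNr : (0 : ℝ) < N := by exact_mod_cast hN
  have hnNr : (n : ℝ) ≤ N := by exact_mod_cast hnN
  obtain ⟨S0, hS0n, hS0c, hS0⟩ := Pool.Agent.Helper24.Net.exists_net
    (EuclideanSpace ℝ (Fin N)) (ε := 1 / 2) (by norm_num)
  have hS := fun J : Finset (Fin N) => Pool.Agent.Helper24.Net.exists_net
    (EuclideanSpace ℝ J) (ε := ε) hε0
  choose S hSn hSc hSJ using hS
  set α : ℝ := √(n / 500) with hα
  have hα0 : 0 < α := Real.sqrt_pos.2 (by positivity)
  set β : ℝ := 8 * √N with hβ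
  have hβ0 : 0 < β := by positivity
  set F : Finset (Finset (Fin N)) := univ.filter (fun J => (J.card : ℝ) ≤ δ * N) with hF
  have hbe : β * ε ≤ α / 2 := by
    have e1 : √(N : ℝ) ≤ √(500 * K') * α := by
      rw [hα, ← Real.sqrt_mul (by positivity)]
      apply Real.sqrt_le_sqrt
      linarith
    rw [hβ, hε]
    rw [mul_one_div, div_le_iff₀ (by positivity)]
    linarith
  have hbd : β * √δ < α / 4 := by
    have e1 : √(N : ℝ) * √δ < α / 32 := by
      rw [← Real.sqrt_mul (by positivity)]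
      have : α / 32 = √(n / 500 / 1024) := by
        rw [Real.sqrt_div (by positivity), show (1024 : ℝ) = 32 ^ 2 by norm_num,
          Real.sqrt_sq (by norm_num)]
      rw [this]
      apply Real.sqrt_lt_sqrt (by positivity)
      calc (N : ℝ) * δ ≤ K' * n * δ := mul_le_mul_of_nonneg_right hNK hδ0.le
        _ < K' * n * (1 / (1024 * 500 * K')) := mul_lt_mul_of_pos_left hδs (by positivity)
        _ = n / 500 / 1024 := by field_simp
    rw [hβ]
    linarith
  -- the inclusion
  have hsub : {x : Fin N → EuclideanSpace ℝ (Fin n) |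
      ¬ ∀ a : Fin N → ℝ, G x a = 0 → δ ^ 2 * (N * ∑ j, a j ^ 2) ≤ (l1 a) ^ 2} ⊆
      (⋃ w ∈ S0, {x | 16 * (N : ℝ) ≤ ‖G x (ofLp w)‖ ^ 2}) ∪
      ⋃ J ∈ F, ⋃ w ∈ S J, {x | ‖G x (emb J w)‖ ^ 2 ≤ (n : ℝ) / 500} := by
    intro x hx
    by_contra hcon
    apply hx
    simp only [Set.mem_union, Set.mem_iUnion, Set.mem_ofPred_eq, exists_prop, not_or, not_exists,
      not_and, not_le] at hcon
    obtain ⟨h1, h2⟩ := hcon
    have hop : ∀ a, ‖G x a‖ ≤ β * l2 a := by
      intro a
      have := op_bound x (M := 4 * √N) (by positivity) S0 hS0 (by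
        intro w hw
        have h3 := h1 w hw
        apply le_of_pow_le_pow_left₀ two_ne_zero (by positivity)
        rw [mul_pow, Real.sq_sqrt hNr.le]
        linarith) a
      calc ‖G x a‖ ≤ 2 * (4 * √N) * l2 a := this
        _ = β * l2 a := by rw [hβ]; ring
    refine kernel_bound hN x hα0.le hδ0 hδ4 hβ0.le hbd hop ?_
    intro J hJ u hu
    refine sparse_bound x hop hβ0.le hbe J (S J) (hSJ J) ?_ u hu
    intro w hw
    have h3 := h2 J (mem_filter.2 ⟨mem_univ _, hJ⟩) w hw
    rw [hα]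
    apply Real.sqrt_le_left (norm_nonneg _) |>.2
    exact h3.le
  refine (measureReal_mono hsub).trans ?_
  refine (measureReal_union_le _ _).trans ?_
  have b1 : (mu n N).real (⋃ w ∈ S0, {x | 16 * (N : ℝ) ≤ ‖G x (ofLp w)‖ ^ 2}) ≤
      Real.exp (-n) := by
    refine (measureReal_biUnion_finset_le _ _).trans ?_
    have e1 : ∀ w ∈ S0, (mu n N).real {x | 16 * (N : ℝ) ≤ ‖G x (ofLp w)‖ ^ 2} ≤
        Real.exp (-3 * N) := by
      intro w hw
      apply upper_event hnN
      rw [← EuclideanSpace.real_norm_sq_eq, hS0n w hw, one_pow]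
    refine (sum_le_sum e1).trans ?_
    rw [sum_const, nsmul_eq_mul]
    have e2 : (S0.card : ℝ) ≤ Real.exp (2 * N) := by
      refine hS0c.trans ?_
      rw [finrank_euclideanSpace_fin]
      have e3 : (1 + 2 / (1 / 2) : ℝ) ≤ Real.exp 2 := by
        have h4 : (2.7 : ℝ) ≤ Real.exp 1 := by have := Real.exp_one_gt_d9; linarith
        have h5 : Real.exp 2 = Real.exp 1 ^ 2 := by
          rw [← Real.exp_nat_mul]; norm_num
        rw [h5]
        nlinarith
      calc (1 + 2 / (1 / 2) : ℝ) ^ N ≤ (Real.exp 2) ^ N :=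
            pow_le_pow_left₀ (by norm_num) e3 N
        _ = Real.exp (2 * N) := by rw [← Real.exp_nat_mul]; congr 1; ring
    calc (S0.card : ℝ) * Real.exp (-3 * N) ≤ Real.exp (2 * N) * Real.exp (-3 * N) :=
          mul_le_mul_of_nonneg_right e2 (Real.exp_pos _).le
      _ = Real.exp (-N) := by rw [← Real.exp_add]; congr 1; ring
      _ ≤ Real.exp (-n) := Real.exp_le_exp.2 (by linarith)
  have b2 : (mu n N).real (⋃ J ∈ F, ⋃ w ∈ S J, {x | ‖G x (emb J w)‖ ^ 2 ≤ (n : ℝ) / 500}) ≤
      Real.exp (-n) := by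
    refine (measureReal_biUnion_finset_le _ _).trans ?_
    have e1 : ∀ J ∈ F, (mu n N).real (⋃ w ∈ S J, {x | ‖G x (emb J w)‖ ^ 2 ≤ (n : ℝ) / 500}) ≤
        Real.exp (δ * N * Real.log (1 + 2 / ε)) * Real.exp (-2 * n) := by
      intro J hJ
      have hJ' : (J.card : ℝ) ≤ δ * N := (mem_filter.1 hJ).2
      refine (measureReal_biUnion_finset_le _ _).trans ?_
      have e2 : ∀ w ∈ S J, (mu n N).real {x | ‖G x (emb J w)‖ ^ 2 ≤ (n : ℝ) / 500} ≤
          Real.exp (-2 * n) := by
        intro w hw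
        apply lower_event
        rw [sum_emb_sq, hSn J w hw, one_pow]
      refine (sum_le_sum e2).trans ?_
      rw [sum_const, nsmul_eq_mul]
      apply mul_le_mul_of_nonneg_right _ (Real.exp_pos _).le
      refine (hSc J).trans ?_
      have e3 : (1 + 2 / ε) ^ (Module.finrank ℝ (EuclideanSpace ℝ J)) =
          Real.exp (J.card * Real.log (1 + 2 / ε)) := by
        rw [Real.exp_nat_mul, Real.exp_log (by positivity), finrank_euclideanSpace,
          Fintype.card_coe]
      rw [e3]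
      apply Real.exp_le_exp.2
      apply mul_le_mul_of_nonneg_right hJ'
      apply Real.log_nonneg
      have : 0 ≤ 2 / ε := by positivity
      linarith
    refine (sum_le_sum e1).trans ?_
    rw [sum_const, nsmul_eq_mul]
    have e4 := card_small N hδ0 (by linarith : δ ≤ 1)
    calc (F.card : ℝ) * (Real.exp (δ * N * Real.log (1 + 2 / ε)) * Real.exp (-2 * n))
        ≤ Real.exp (δ * N * (1 - Real.log δ)) *
          (Real.exp (δ * N * Real.log (1 + 2 / ε)) * Real.exp (-2 * n)) :=
          mul_le_mul_of_nonneg_right e4 (by positivity)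
      _ = Real.exp (N * (δ * (1 - Real.log δ + Real.log (1 + 2 / ε))) - 2 * n) := by
          rw [← Real.exp_add, ← Real.exp_add]; congr 1; ring
      _ ≤ Real.exp (-n) := by
          apply Real.exp_le_exp.2
          have h6 : 0 ≤ δ * (1 - Real.log δ + Real.log (1 + 2 / ε)) := by
            have h7 : Real.log δ ≤ 0 := Real.log_nonpos hδ0.le (by linarith)
            have h8 : 0 ≤ Real.log (1 + 2 / ε) := by
              apply Real.log_nonneg
              have : 0 ≤ 2 / ε := by positivity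
              linarith
            apply mul_nonneg hδ0.le
            linarith
          have h9 := mul_le_mul_of_nonneg_right hNK h6
          have h10 : K' * n * (δ * (1 - Real.log δ + Real.log (1 + 2 / ε))) ≤ n := by
            calc K' * n * (δ * (1 - Real.log δ + Real.log (1 + 2 / ε))) =
                n * (δ * K' * (1 - Real.log δ + Real.log (1 + 2 / ε))) := by ring
              _ ≤ n * 1 := mul_le_mul_of_nonneg_left hδK hnr.le
              _ = n := mul_one _
          linarith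
  linarith

end Pool.Agent.Helper24.Prob
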